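import Mathlib

/-! Averages over finite types. -/

set_option autoImplicit false

namespace Pool.Agent.V11329.Avg

open Finset

/-- the average of a real function over a finite type -/
noncomputable def av {Ω : Type*} [Fintype Ω] (g : Ω → ℝ) : ℝ := (∑ ω, g ω) / Fintype.card Ω

open Classical in
/-- the indicator of a proposition -/
noncomputable def I (P : Prop) : ℝ := if P then 1 else 0

lemma I_true {P : Prop} (h : P) : I P = 1 := by simp [I, h]
lemma I_false {P : Prop} (h : ¬ P) : I P = 0 := by simp [I, h]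
lemma I_nonneg (P : Prop) : 0 ≤ I P := by unfold I; split_ifs <;> norm_num
lemma I_le_one (P : Prop) : I P ≤ 1 := by unfold I; split_ifs <;> norm_num
lemma I_mono {P Q : Prop} (h : P → Q) : I P ≤ I Q := by
  by_cases hP : P
  · rw [I_true hP, I_true (h hP)]
  · rw [I_false hP]; exact I_nonneg _
lemma I_congr {P Q : Prop} (h : P ↔ Q) : I P = I Q := by
  by_cases hP : P
  · rw [I_true hP, I_true (h.1 hP)]
  · rw [I_false hP, I_false (fun hQ => hP (h.2 hQ))]
lemma I_not (P : Prop) : I (¬ P) = 1 - I P := by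
  by_cases hP : P
  · rw [I_true hP, I_false (fun h => h hP)]; ring
  · rw [I_false hP, I_true hP]; ring
lemma I_and (P Q : Prop) : I (P ∧ Q) = I P * I Q := by
  by_cases hP : P
  · by_cases hQ : Q
    · rw [I_true hP, I_true hQ, I_true ⟨hP, hQ⟩]; ring
    · rw [I_false hQ, I_false (fun h => hQ h.2)]; ring
  · rw [I_false hP, I_false (fun h => hP h.1)]; ring
lemma I_or_le (P Q : Prop) : I (P ∨ Q) ≤ I P + I Q := by
  by_cases hP : P
  · rw [I_true hP, I_true (Or.inl hP)]; linarith [I_nonneg Q]
  · by_cases hQ : Q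
    · rw [I_true hQ, I_true (Or.inr hQ)]; linarith [I_nonneg P]
    · rw [I_false (not_or.2 ⟨hP, hQ⟩)]; linarith [I_nonneg P, I_nonneg Q]
lemma I_exists_le {α : Type*} [Fintype α] (P : α → Prop) : I (∃ a, P a) ≤ ∑ a, I (P a) := by
  by_cases h : ∃ a, P a
  · obtain ⟨a, ha⟩ := h
    rw [I_true ⟨a, ha⟩, ← I_true ha]
    exact Finset.single_le_sum (f := fun a => I (P a)) (fun a _ => I_nonneg _) (Finset.mem_univ a)
  · rw [I_false h]
    exact Finset.sum_nonneg (fun a _ => I_nonneg _)

variable {Ω Ω' : Type*} [Fintype Ω] [Fintype Ω']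

lemma av_mono {g h : Ω → ℝ} (H : ∀ ω, g ω ≤ h ω) : av g ≤ av h := by
  unfold av
  exact div_le_div_of_nonneg_right (Finset.sum_le_sum fun ω _ => H ω) (by positivity)

lemma av_congr {g h : Ω → ℝ} (H : ∀ ω, g ω = h ω) : av g = av h := by
  unfold av; rw [Finset.sum_congr rfl fun ω _ => H ω]

lemma av_const [Nonempty Ω] (c : ℝ) : av (fun _ : Ω => c) = c := by
  unfold av
  rw [Finset.sum_const, Finset.card_univ, nsmul_eq_mul]
  have : (Fintype.card Ω : ℝ) ≠ 0 := by exact_mod_cast Fintype.card_ne_zero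
  field_simp

lemma av_add (g h : Ω → ℝ) : av (fun ω => g ω + h ω) = av g + av h := by
  unfold av; rw [Finset.sum_add_distrib, add_div]

lemma av_sub (g h : Ω → ℝ) : av (fun ω => g ω - h ω) = av g - av h := by
  unfold av; rw [Finset.sum_sub_distrib, sub_div]

lemma av_mul_left (c : ℝ) (g : Ω → ℝ) : av (fun ω => c * g ω) = c * av g := by
  unfold av; rw [← Finset.mul_sum, mul_div_assoc]

lemma av_mul_right (c : ℝ) (g : Ω → ℝ) : av (fun ω => g ω * c) = av g * c := by
  unfold av; rw [← Finset.sum_mul]; ring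

lemma av_sum {α : Type*} (s : Finset α) (g : α → Ω → ℝ) :
    av (fun ω => ∑ a ∈ s, g a ω) = ∑ a ∈ s, av (g a) := by
  unfold av; rw [Finset.sum_comm, Finset.sum_div]

lemma av_nonneg {g : Ω → ℝ} (H : ∀ ω, 0 ≤ g ω) : 0 ≤ av g := by
  unfold av; exact div_nonneg (Finset.sum_nonneg fun ω _ => H ω) (by positivity)

lemma av_equiv (e : Ω ≃ Ω') (g : Ω' → ℝ) : av (fun ω => g (e ω)) = av g := by
  unfold av; rw [Equiv.sum_comp e g, Fintype.card_congr e]

lemma av_prod (g : Ω × Ω' → ℝ) : av g = av (fun ω => av (fun ω' => g (ω, ω'))) := by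
  unfold av
  rw [Fintype.sum_prod_type, Fintype.card_prod, ← Finset.sum_div, div_div, Nat.cast_mul,
    mul_comm (Fintype.card Ω : ℝ)]

lemma av_comm (g : Ω → Ω' → ℝ) :
    av (fun ω => av (fun ω' => g ω ω')) = av (fun ω' => av (fun ω => g ω ω')) := by
  unfold av
  rw [← Finset.sum_div, ← Finset.sum_div, div_div, div_div, Finset.sum_comm,
    mul_comm (Fintype.card Ω : ℝ)]

lemma av_cons {W : Type*} [Fintype W] {m : ℕ} (g : (Fin (m + 1) → W) → ℝ) :
    av g = av (fun w : W => av (fun ω : Fin m → W => g (Fin.cons w ω))) := by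
  rw [← av_prod (fun q : W × (Fin m → W) => g (Fin.cons q.1 q.2)),
    ← av_equiv (Fin.consEquiv (fun _ : Fin (m + 1) => W)) g]
  rfl

/-- a surjective homomorphism of finite groups preserves averages -/
lemma av_surj {A B : Type*} [AddCommGroup A] [AddCommGroup B] [Fintype A] [Fintype B]
    (φ : A →+ B) (h : Function.Surjective φ) (g : B → ℝ) : av (fun a => g (φ a)) = av g := by
  classical
  have hfib : ∀ b : B, ((Finset.univ.filter (fun a => φ a = b)).card : ℝ)
      = (Fintype.card A : ℝ) / Fintype.card B := by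
    intro b
    have h1 : ∀ b : B, (Finset.univ.filter (fun a => φ a = b)).card
        = (Finset.univ.filter (fun a => φ a = 0)).card := by
      intro b
      obtain ⟨a0, ha0⟩ := h b
      apply Finset.card_bij (fun a _ => a - a0)
      · intro a ha
        simp only [Finset.mem_filter, Finset.mem_univ, true_and] at ha ⊢
        rw [map_sub, ha, ha0, sub_self]
      · intro a _ a' _ haa
        simpa using haa
      · intro c hc
        simp only [Finset.mem_filter, Finset.mem_univ, true_and] at hc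
        exact ⟨c + a0, by simp [hc, ha0], by simp⟩
    have h2 : Fintype.card A = ∑ b : B, (Finset.univ.filter (fun a => φ a = b)).card := by
      rw [← Finset.card_univ]
      exact Finset.card_eq_sum_card_fiberwise (fun a _ => Finset.mem_coe.2 (Finset.mem_univ _))
    rw [Finset.sum_congr rfl fun b _ => h1 b, Finset.sum_const, Finset.card_univ,
      smul_eq_mul] at h2
    have hB : (Fintype.card B : ℝ) ≠ 0 := by
      have : Nonempty B := ⟨0⟩
      exact_mod_cast Fintype.card_ne_zero
    rw [h1 b, h2, Nat.cast_mul]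
    field_simp
  unfold av
  have h3 : ∑ a, g (φ a) = ∑ b, ((Finset.univ.filter (fun a => φ a = b)).card : ℝ) * g b := by
    rw [← Finset.sum_fiberwise Finset.univ φ (fun a => g (φ a))]
    refine Finset.sum_congr rfl fun b _ => ?_
    rw [Finset.sum_congr rfl (g := fun _ => g b)]
    · rw [Finset.sum_const, nsmul_eq_mul]
    · intro a ha
      rw [(Finset.mem_filter.1 ha).2]
  rw [h3, Finset.sum_congr rfl fun b _ => by rw [hfib b], ← Finset.mul_sum]
  have hA : (Fintype.card A : ℝ) ≠ 0 := by
    have : Nonempty A := ⟨0⟩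
    exact_mod_cast Fintype.card_ne_zero
  have hB : (Fintype.card B : ℝ) ≠ 0 := by
    have : Nonempty B := ⟨0⟩
    exact_mod_cast Fintype.card_ne_zero
  field_simp

end Pool.Agent.V11329.Avg
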