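import Pool.Agent.V11329.Avg

/-! Chains of subgroups of exponent-`p` quotients and extremality of independence probabilities. -/

set_option autoImplicit false

namespace Pool.Agent.V11329.Chain

open AddSubgroup Pool.Agent.V11329.Avg

variable {W : Type*} [AddCommGroup W] {p : ℕ}

/-- join of a subgroup with a family of elements -/
def J {m : ℕ} (S : AddSubgroup W) (x : Fin m → W) : AddSubgroup W := S ⊔ closure (Set.range x)

lemma le_J {m : ℕ} (S : AddSubgroup W) (x : Fin m → W) : S ≤ J S x := le_sup_left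

lemma J_zero (S : AddSubgroup W) (x : Fin 0 → W) : J S x = S := by
  unfold J; simp

lemma J_cons {m : ℕ} (S : AddSubgroup W) (x0 : W) (x : Fin m → W) :
    J S (Fin.cons x0 x : Fin (m + 1) → W) = J (S ⊔ zmultiples x0) x := by
  unfold J
  rw [Fin.range_cons, Set.insert_eq, AddSubgroup.closure_union, ← zmultiples_eq_closure, sup_assoc]

lemma index_step (hp : p.Prime) (S : AddSubgroup W) (hS : ∀ x, p • x ∈ S) {x : W} (hx : x ∉ S) :
    (S ⊔ zmultiples x).index * p = S.index := by
  have h1 := relIndex_mul_index (H := S) (K := S ⊔ zmultiples x) le_sup_left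
  rw [relIndex_sup_left] at h1
  have h2 : S.relIndex (zmultiples x) = p := by
    have h3 : (zmultiplesHom W x).range = zmultiples x := by
      ext y; simp [mem_zmultiples_iff]
    rw [← h3, ← index_comap]
    set T := S.comap (zmultiplesHom W x) with hT
    have h4 : zmultiples (p : ℤ) ≤ T := by
      rw [zmultiples_le]
      show (zmultiplesHom W x) (p : ℤ) ∈ S
      simpa using hS x
    have h5 : T.index ∣ p := by
      have := index_dvd_of_le h4
      rwa [Int.index_zmultiples, Int.natAbs_natCast] at this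
    rcases (Nat.dvd_prime hp).1 h5 with h6 | h6
    · exfalso
      rw [index_eq_one] at h6
      have : (1 : ℤ) ∈ T := by rw [h6]; trivial
      apply hx
      have h7 : (zmultiplesHom W x) (1 : ℤ) ∈ S := this
      simpa using h7
    · exact h6
  rw [h2, mul_comm] at h1
  exact h1

lemma index_le_step (hp : p.Prime) (S : AddSubgroup W) (hS : ∀ x, p • x ∈ S) (x : W) :
    S.index ≤ (S ⊔ zmultiples x).index * p := by
  by_cases hx : x ∈ S
  · have : S ⊔ zmultiples x = S := by
      rw [sup_eq_left, zmultiples_le]; exact hx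
    rw [this]
    exact Nat.le_mul_of_pos_right _ hp.pos
  · exact (index_step hp S hS hx).ge

lemma index_le_J (hp : p.Prime) {m : ℕ} : ∀ (S : AddSubgroup W) (_ : ∀ x, p • x ∈ S)
    (x : Fin m → W), S.index ≤ (J S x).index * p ^ m := by
  induction m with
  | zero => intro S hS x; rw [J_zero]; simp
  | succ m ih =>
    intro S hS x
    rw [← Fin.cons_self_tail x, J_cons]
    have h1 := ih (S ⊔ zmultiples (x 0)) (fun y => le_sup_left (a := S) (hS y)) (Fin.tail x)
    have h2 := index_le_step hp S hS (x 0)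
    calc S.index ≤ (S ⊔ zmultiples (x 0)).index * p := h2
      _ ≤ ((J (S ⊔ zmultiples (x 0)) (Fin.tail x)).index * p ^ m) * p :=
          Nat.mul_le_mul_right _ h1
      _ = _ := by rw [pow_succ, mul_assoc]

/-- the family `x` is independent modulo `S` -/
def Ind (p : ℕ) {m : ℕ} (S : AddSubgroup W) (x : Fin m → W) : Prop :=
  (J S x).index * p ^ m = S.index

lemma Ind_cons [Finite W] (hp : p.Prime) {m : ℕ} (S : AddSubgroup W) (hS : ∀ x, p • x ∈ S) (x0 : W)
    (x : Fin m → W) : Ind p S (Fin.cons x0 x : Fin (m + 1) → W) ↔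
      x0 ∉ S ∧ Ind p (S ⊔ zmultiples x0) x := by
  unfold Ind
  rw [J_cons]
  by_cases hx : x0 ∈ S
  · have h1 : S ⊔ zmultiples x0 = S := by
      rw [sup_eq_left, zmultiples_le]; exact hx
    rw [h1]
    constructor
    · intro h
      exfalso
      have h2 := index_le_J hp S hS x
      rw [← h, pow_succ, ← mul_assoc] at h2
      have h3 : 0 < (J S x).index * p ^ m :=
        Nat.mul_pos (Nat.pos_of_ne_zero index_ne_zero_of_finite) (pow_pos hp.pos m)
      have h4 := hp.two_le
      nlinarith
    · rintro ⟨h, -⟩; exact absurd hx h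
  · have h1 := index_step hp S hS hx
    constructor
    · intro h
      refine ⟨hx, ?_⟩
      rw [← h1, pow_succ, ← mul_assoc] at h
      exact Nat.eq_of_mul_eq_mul_right hp.pos h
    · rintro ⟨-, h⟩
      rw [← h1, ← h, pow_succ, mul_assoc]

lemma index_of_Ind (S : AddSubgroup W) {m d : ℕ} (hp : p.Prime) (hd : S.index = p ^ (m + d))
    (x : Fin m → W) (h : Ind p S x) : (J S x).index = p ^ d := by
  unfold Ind at h
  rw [hd, pow_add, mul_comm] at h
  exact Nat.eq_of_mul_eq_mul_left (pow_pos hp.pos m) h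

/-- the probability that a random element is in the preimage of a subgroup -/
lemma av_mem [Fintype W] (f : W →+ W) (S : AddSubgroup W) :
    av (fun w : W => I (f w ∈ S)) = 1 / ((S.comap f).index : ℝ) := by
  classical
  have h1 : ∑ w : W, I (f w ∈ S) = (Nat.card (S.comap f) : ℝ) := by
    unfold I
    rw [Finset.sum_boole]
    congr 1
    rw [Nat.card_eq_fintype_card, ← Fintype.card_coe]
    apply Fintype.card_congr
    exact Equiv.subtypeEquivRight (fun w => by simp)
  unfold av
  rw [h1]
  have h2 := card_mul_index (S.comap f)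
  rw [Nat.card_eq_fintype_card (α := W)] at h2
  rw [← h2]
  have h3 : (Nat.card (S.comap f) : ℝ) ≠ 0 := by exact_mod_cast Nat.card_pos.ne'
  have h4 : ((S.comap f).index : ℝ) ≠ 0 := by exact_mod_cast index_ne_zero_of_finite
  push_cast
  field_simp

lemma av_notMem_le [Fintype W] (f : W →+ W) (S : AddSubgroup W) {k : ℕ} (hk : (S.comap f).index ≤ k) :
    av (fun w : W => I (f w ∉ S)) ≤ 1 - 1 / (k : ℝ) := by
  have h1 : av (fun w : W => I (f w ∉ S)) = 1 - av (fun w : W => I (f w ∈ S)) := by
    rw [av_congr (h := fun w => 1 - I (f w ∈ S)) (fun w => I_not _), av_sub, av_const]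
  rw [h1, av_mem]
  have h4 : (0 : ℝ) < ((S.comap f).index : ℝ) := by
    exact_mod_cast Nat.pos_of_ne_zero index_ne_zero_of_finite
  have h5 : ((S.comap f).index : ℝ) ≤ k := by exact_mod_cast hk
  have := one_div_le_one_div_of_le h4 h5
  linarith

/-- independence probability for random elements `f a (ω a)` -/
noncomputable def pI [Fintype W] (p : ℕ) {m : ℕ} (S : AddSubgroup W) (f : Fin m → W →+ W) : ℝ :=
  av (fun ω : Fin m → W => I (Ind p S (fun a => f a (ω a))))

/-- `∏_{j<m} (1 - p^{-(d-j)})` -/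
noncomputable def cc (p m d : ℕ) : ℝ := ∏ j ∈ Finset.range m, (1 - 1 / ((p : ℝ) ^ (d - j)))

lemma cc_zero (p d : ℕ) : cc p 0 d = 1 := by simp [cc]

lemma cc_succ (p m d : ℕ) : cc p (m + 1) d = (1 - 1 / (p : ℝ) ^ d) * cc p m (d - 1) := by
  unfold cc
  rw [Finset.prod_range_succ', mul_comm]
  simp only [Nat.sub_zero]
  congr 1
  refine Finset.prod_congr rfl fun j _ => ?_
  rw [show d - (j + 1) = d - 1 - j by omega]

lemma cc_nonneg (hp : p.Prime) (m d : ℕ) : 0 ≤ cc p m d := by
  unfold cc
  refine Finset.prod_nonneg fun j _ => ?_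
  have h1 : (1 : ℝ) ≤ (p : ℝ) ^ (d - j) := one_le_pow₀ (by exact_mod_cast hp.one_lt.le)
  have := div_le_one_of_le₀ h1 (by positivity)
  linarith

lemma pI_succ [Fintype W] (hp : p.Prime) {m : ℕ} (S : AddSubgroup W) (hS : ∀ x, p • x ∈ S)
    (f : Fin (m + 1) → W →+ W) :
    pI p S f = av (fun w : W => I (f 0 w ∉ S) * pI p (S ⊔ zmultiples (f 0 w)) (Fin.tail f)) := by
  unfold pI
  rw [av_cons]
  refine av_congr fun w => ?_
  rw [← av_mul_left]
  refine av_congr fun ω => ?_
  rw [← I_and]
  apply I_congr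
  rw [← Ind_cons hp S hS]
  have : (fun a => f a ((Fin.cons w ω : Fin (m + 1) → W) a))
      = (Fin.cons (f 0 w) (fun a => Fin.tail f a (ω a)) : Fin (m + 1) → W) := by
    funext a
    refine Fin.cases ?_ (fun i => ?_) a
    · simp
    · simp [Fin.tail]
  rw [this]

lemma comap_index_le [Finite W] (f : W →+ W) (S : AddSubgroup W) : (S.comap f).index ≤ S.index := by
  rw [index_comap]
  exact Nat.le_of_dvd (Nat.pos_of_ne_zero index_ne_zero_of_finite) (relIndex_dvd_index_of_normal _ _)

lemma pI_le_one [Fintype W] {m : ℕ} (S : AddSubgroup W) (f : Fin m → W →+ W) : pI p S f ≤ 1 := by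
  unfold pI
  calc av (fun ω : Fin m → W => I (Ind p S (fun a => f a (ω a)))) ≤ av (fun _ : Fin m → W => (1:ℝ)) :=
        av_mono fun _ => I_le_one _
    _ = 1 := av_const 1

lemma pI_nonneg [Fintype W] {m : ℕ} (S : AddSubgroup W) (f : Fin m → W →+ W) : 0 ≤ pI p S f :=
  av_nonneg fun _ => I_nonneg _

lemma pI_le [Fintype W] (hp : p.Prime) {m : ℕ} : ∀ (S : AddSubgroup W) (_ : ∀ x, p • x ∈ S)
    (d : ℕ) (_ : S.index = p ^ d) (f : Fin m → W →+ W), pI p S f ≤ cc p m d := by
  induction m with
  | zero => intro S hS d hd f; rw [cc_zero]; exact pI_le_one S f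
  | succ m ih =>
    intro S hS d hd f
    rw [pI_succ hp S hS, cc_succ]
    have key : ∀ w : W, I (f 0 w ∉ S) * pI p (S ⊔ zmultiples (f 0 w)) (Fin.tail f)
        ≤ I (f 0 w ∉ S) * cc p m (d - 1) := by
      intro w
      by_cases hw : f 0 w ∈ S
      · rw [I_false (not_not.2 hw)]; simp
      · refine mul_le_mul_of_nonneg_left ?_ (I_nonneg _)
        apply ih
        · exact fun x => le_sup_left (a := S) (hS x)
        · have h1 := index_step hp S hS hw
          rw [hd] at h1
          rcases Nat.eq_zero_or_pos d with h0 | h0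
          · exfalso
            subst h0
            rw [pow_zero, index_eq_one] at hd
            exact hw (hd ▸ trivial)
          · obtain ⟨d', rfl⟩ := Nat.exists_eq_succ_of_ne_zero h0.ne'
            rw [pow_succ] at h1
            exact Nat.eq_of_mul_eq_mul_right hp.pos h1
    refine (av_mono key).trans ?_
    rw [av_mul_right]
    refine mul_le_mul_of_nonneg_right ?_ (cc_nonneg hp _ _)
    have := av_notMem_le (f 0) S (k := p ^ d) (hd ▸ comap_index_le (f 0) S)
    rwa [Nat.cast_pow] at this

/-- if the first map is not onto modulo `S` the bound improves -/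
lemma pI_le_bad [Fintype W] (hp : p.Prime) {m : ℕ} (S : AddSubgroup W) (hS : ∀ x, p • x ∈ S)
    (d : ℕ) (hd : S.index = p ^ (d + 1)) (f : Fin (m + 1) → W →+ W)
    (hbad : S ⊔ (f 0).range ≠ ⊤) : pI p S f ≤ (1 - 1 / (p : ℝ) ^ d) * cc p m d := by
  rw [pI_succ hp S hS]
  have key : ∀ w : W, I (f 0 w ∉ S) * pI p (S ⊔ zmultiples (f 0 w)) (Fin.tail f)
      ≤ I (f 0 w ∉ S) * cc p m d := by
    intro w
    by_cases hw : f 0 w ∈ S
    · rw [I_false (not_not.2 hw)]; simp
    · refine mul_le_mul_of_nonneg_left ?_ (I_nonneg _)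
      apply pI_le hp
      · exact fun x => le_sup_left (a := S) (hS x)
      · have h1 := index_step hp S hS hw
        rw [hd, pow_succ] at h1
        exact Nat.eq_of_mul_eq_mul_right hp.pos h1
  refine (av_mono key).trans ?_
  rw [av_mul_right]
  refine mul_le_mul_of_nonneg_right ?_ (cc_nonneg hp _ _)
  have hle : (S.comap (f 0)).index ≤ p ^ d := by
    rw [index_comap]
    have h1 := relIndex_mul_index (H := S) (K := S ⊔ (f 0).range) le_sup_left
    rw [relIndex_sup_left, hd] at h1
    have h2 : S.relIndex (f 0).range ∣ p ^ (d + 1) := ⟨_, h1.symm⟩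
    obtain ⟨k, hk, hk'⟩ := (Nat.dvd_prime_pow hp).1 h2
    rw [hk']
    apply Nat.pow_le_pow_right hp.pos
    by_contra hcon
    have h3 : k = d + 1 := by omega
    rw [hk', h3] at h1
    have h4 : (S ⊔ (f 0).range).index = 1 :=
      Nat.eq_of_mul_eq_mul_left (pow_pos hp.pos (d + 1)) (by rw [h1, mul_one])
    exact hbad (index_eq_one.1 h4)
  have := av_notMem_le (f 0) S hle
  rwa [Nat.cast_pow] at this

lemma J_comp_equiv {m : ℕ} (S : AddSubgroup W) (x : Fin m → W) (e : Fin m ≃ Fin m) :
    J S (x ∘ e) = J S x := by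
  unfold J; rw [Set.range_comp, e.surjective.range_eq, Set.image_univ]

lemma pI_perm [Fintype W] {m : ℕ} (S : AddSubgroup W) (f : Fin m → W →+ W) (e : Fin m ≃ Fin m) :
    pI p S (f ∘ e) = pI p S f := by
  unfold pI
  rw [← av_equiv (Equiv.arrowCongr e (Equiv.refl W)) (fun ω => I (Ind p S fun a => (f a) (ω a)))]
  refine av_congr fun ω => I_congr ?_
  unfold Ind
  have : (fun a => (f ∘ e) a (ω a)) =
      (fun a => (f a) (((Equiv.arrowCongr e (Equiv.refl W)) ω) a)) ∘ e := by
    funext a
    simp [Equiv.arrowCongr]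
  rw [this, J_comp_equiv]

lemma pI_le_bad' [Fintype W] (hp : p.Prime) {m : ℕ} (S : AddSubgroup W) (hS : ∀ x, p • x ∈ S)
    (d : ℕ) (hd : S.index = p ^ (d + 1)) (f : Fin (m + 1) → W →+ W) (b : Fin (m + 1))
    (hbad : S ⊔ (f b).range ≠ ⊤) : pI p S f ≤ (1 - 1 / (p : ℝ) ^ d) * cc p m d := by
  rw [← pI_perm S f (Equiv.swap 0 b)]
  apply pI_le_bad hp S hS d hd
  simpa using hbad

/-- exact value for uniform elements -/
lemma pI_id [Fintype W] (hp : p.Prime) {m : ℕ} : ∀ (S : AddSubgroup W) (_ : ∀ x, p • x ∈ S)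
    (d : ℕ) (_ : S.index = p ^ d), pI p S (fun _ : Fin m => AddMonoidHom.id W) = cc p m d := by
  induction m with
  | zero =>
    intro S hS d hd
    rw [cc_zero]
    unfold pI Ind
    rw [av_congr (h := fun _ => (1 : ℝ)) (fun ω => I_true (by rw [J_zero]; simp)), av_const]
  | succ m ih =>
    intro S hS d hd
    rw [pI_succ hp S hS, cc_succ]
    have key : ∀ w : W, I (((fun _ : Fin (m+1) => AddMonoidHom.id W) 0) w ∉ S) *
        pI p (S ⊔ zmultiples (((fun _ : Fin (m+1) => AddMonoidHom.id W) 0) w))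
          (Fin.tail (fun _ : Fin (m+1) => AddMonoidHom.id W))
        = I (((fun _ : Fin (m+1) => AddMonoidHom.id W) 0) w ∉ S) * cc p m (d - 1) := by
      intro w
      by_cases hw : w ∈ S
      · have hw' : ¬ ((fun _ : Fin (m+1) => AddMonoidHom.id W) 0) w ∉ S := not_not.2 hw
        rw [I_false hw']; simp
      · congr 1
        apply ih
        · exact fun x => le_sup_left (a := S) (hS x)
        · have h1 := index_step hp S hS hw
          rw [hd] at h1
          rcases Nat.eq_zero_or_pos d with h0 | h0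
          · exfalso
            subst h0
            rw [pow_zero, index_eq_one] at hd
            exact hw (hd ▸ trivial)
          · obtain ⟨d', rfl⟩ := Nat.exists_eq_succ_of_ne_zero h0.ne'
            rw [pow_succ] at h1
            exact Nat.eq_of_mul_eq_mul_right hp.pos h1
    rw [av_congr key, av_mul_right]
    congr 1
    have h1 : av (fun w : W => I (((fun _ : Fin (m+1) => AddMonoidHom.id W) 0) w ∉ S))
        = 1 - av (fun w : W => I ((AddMonoidHom.id W) w ∈ S)) := by
      rw [av_congr (h := fun w => 1 - I ((AddMonoidHom.id W) w ∈ S)) (fun w => I_not _), av_sub,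
        av_const]
    rw [h1, av_mem, AddSubgroup.comap_id, hd, Nat.cast_pow]

end Pool.Agent.V11329.Chain
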