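import Mathlib

/-! Definitions: Haar random matrices over the `p`-adic integers with prescribed supports, their
cokernels and the Cohen-Lenstra distribution. -/

set_option autoImplicit false

namespace Pool.Agent.V11329.CokDefs

open MeasureTheory

/-- the Haar probability measure on the Borel sets of the `p`-adic integers -/
noncomputable def haarZp (p : ℕ) [Fact p.Prime] : @Measure ℤ_[p] (borel ℤ_[p]) :=
  letI : MeasurableSpace ℤ_[p] := borel ℤ_[p]
  haveI : BorelSpace ℤ_[p] := ⟨rfl⟩
  Measure.addHaarMeasure ⊤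

/-- the law of `n` columns, each made of `n` entries, all entries being independent and
Haar distributed; `ω j i` is the entry of row `i` in column `j` -/
noncomputable def haarCols (p : ℕ) [Fact p.Prime] (n : ℕ) :
    @Measure (Fin n → Fin n → ℤ_[p])
      (@MeasurableSpace.pi _ _ fun _ => @MeasurableSpace.pi _ _ fun _ => borel ℤ_[p]) :=
  letI : MeasurableSpace ℤ_[p] := borel ℤ_[p]
  Measure.pi fun _ : Fin n => Measure.pi fun _ : Fin n => haarZp p

/-- the probability of an event for independent Haar random entries -/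
noncomputable def prob (p : ℕ) [Fact p.Prime] (n : ℕ) (E : Set (Fin n → Fin n → ℤ_[p])) : ℝ :=
  @Measure.real _ (@MeasurableSpace.pi _ _ fun _ => @MeasurableSpace.pi _ _ fun _ => borel ℤ_[p])
    (haarCols p n) E

open Classical in
/-- the matrix with support `σ`: the entry `(i, j)` is `ω j i` if `i ∈ σ j` and zero otherwise -/
noncomputable def mat {p : ℕ} [Fact p.Prime] {n : ℕ} (σ : Fin n → Set (Fin n))
    (ω : Fin n → Fin n → ℤ_[p]) : Matrix (Fin n) (Fin n) ℤ_[p] :=
  Matrix.of fun i j => if i ∈ σ j then ω j i else 0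

/-- the cokernel of a square matrix over the `p`-adic integers -/
abbrev cok {p : ℕ} [Fact p.Prime] {n : ℕ} (X : Matrix (Fin n) (Fin n) ℤ_[p]) : Type :=
  (Fin n → ℤ_[p]) ⧸ LinearMap.range X.mulVecLin

/-- the constant `∏_{i ≥ 1} (1 - p^{-i})` -/
noncomputable def cInf (p : ℕ) : ℝ := ∏' i : ℕ, (1 - 1 / (p : ℝ) ^ (i + 1))

/-- the mass of the Cohen-Lenstra distribution at `G` -/
noncomputable def CL (p : ℕ) (G : Type) [AddCommGroup G] : ℝ :=
  1 / (Nat.card (G ≃+ G) : ℝ) * cInf p

end Pool.Agent.V11329.CokDefs
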