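import Pool.Agent.V11329.Haar

/-! Cokernels over the `p`-adic integers and their reductions. -/

set_option autoImplicit false

namespace Pool.Agent.V11329.Coker

open Pool.Agent.V11329.Avg Pool.Agent.V11329.Chain Pool.Agent.V11329.Quot Pool.Agent.V11329.Haar
  Pool.Agent.V11329.CokDefs

lemma same_ker {A B₁ B₂ : Type*} [AddCommGroup A] [AddCommGroup B₁] [AddCommGroup B₂]
    (f : A →+ B₁) (g : A →+ B₂) (hf : Function.Surjective f) (hg : Function.Surjective g)
    (h : f.ker = g.ker) : Nonempty (B₁ ≃+ B₂) :=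
  ⟨(QuotientAddGroup.quotientKerEquivOfSurjective f hf).symm.trans
    ((QuotientAddGroup.quotientAddEquivOfEq h).trans
      (QuotientAddGroup.quotientKerEquivOfSurjective g hg))⟩

variable {p : ℕ} [Fact p.Prime] {n : ℕ}

/-- reduction of vectors -/
noncomputable def redV (p : ℕ) [Fact p.Prime] (N n : ℕ) : (Fin n → ℤ_[p]) →+ (Fin n → ZMod (p ^ N)) :=
  AddMonoidHom.mk' (fun x i => PadicInt.toZModPow N (x i)) (fun x y => by
    funext i; exact map_add _ _ _)

lemma redV_surj (N n : ℕ) : Function.Surjective (redV p N n) := by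
  intro y
  choose x hx using fun i => toZModPow_surj p N (y i)
  exact ⟨x, funext hx⟩

lemma redV_ker (N n : ℕ) (x : Fin n → ℤ_[p]) :
    redV p N n x = 0 ↔ ∃ y : Fin n → ℤ_[p], x = (p : ℤ_[p]) ^ N • y := by
  constructor
  · intro h
    have h1 : ∀ i, ∃ y : ℤ_[p], x i = (p : ℤ_[p]) ^ N * y := by
      intro i
      have h2 : x i ∈ RingHom.ker (PadicInt.toZModPow (p := p) N) := congrFun h i
      rw [PadicInt.ker_toZModPow, Ideal.mem_span_singleton] at h2
      exact h2
    choose y hy using h1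
    exact ⟨y, funext hy⟩
  · rintro ⟨y, rfl⟩
    funext i
    have h2 : (p : ℤ_[p]) ^ N * y i ∈ RingHom.ker (PadicInt.toZModPow (p := p) N) := by
      rw [PadicInt.ker_toZModPow, Ideal.mem_span_singleton]
      exact ⟨y i, rfl⟩
    exact h2

lemma map_range (N : ℕ) (X : Matrix (Fin n) (Fin n) ℤ_[p]) (x : Fin n → ZMod (p ^ N)) :
    x ∈ AddSubgroup.closure (Set.range fun j => fun i => PadicInt.toZModPow N (X i j)) ↔
      ∃ v : Fin n → ℤ_[p], redV p N n (X.mulVec v) = x := by
  have : NeZero (p ^ N) := ⟨pow_ne_zero _ (Fact.out : p.Prime).ne_zero⟩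
  constructor
  · intro h
    induction h using AddSubgroup.closure_induction with
    | mem x hx =>
      obtain ⟨j, rfl⟩ := hx
      refine ⟨Pi.single j 1, ?_⟩
      rw [Matrix.mulVec_single_one]
      rfl
    | zero => exact ⟨0, by rw [Matrix.mulVec_zero, map_zero]⟩
    | add x y _ _ hx hy =>
      obtain ⟨v, hv⟩ := hx
      obtain ⟨w, hw⟩ := hy
      exact ⟨v + w, by rw [Matrix.mulVec_add, map_add, hv, hw]⟩
    | neg x _ hx =>
      obtain ⟨v, hv⟩ := hx
      exact ⟨-v, by rw [Matrix.mulVec_neg, map_neg, hv]⟩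
  · rintro ⟨v, rfl⟩
    have h1 : redV p N n (X.mulVec v) = ∑ j, (PadicInt.toZModPow N (v j)).val •
        (fun i => PadicInt.toZModPow N (X i j)) := by
      funext i
      rw [Finset.sum_apply]
      show PadicInt.toZModPow N (X.mulVec v i) = _
      rw [Matrix.mulVec, dotProduct, map_sum]
      refine Finset.sum_congr rfl fun j _ => ?_
      rw [map_mul, Pi.smul_apply, nsmul_eq_mul, ZMod.natCast_zmod_val, mul_comm]
    rw [h1]
    exact sum_mem fun j _ => nsmul_mem (AddSubgroup.subset_closure (Set.mem_range_self j)) _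

/-- the submodule of multiples of `p ^ k` -/
noncomputable def mulP (p : ℕ) [Fact p.Prime] (k n : ℕ) : Submodule ℤ_[p] (Fin n → ℤ_[p]) :=
  LinearMap.range ((p : ℤ_[p]) ^ k • (LinearMap.id : (Fin n → ℤ_[p]) →ₗ[ℤ_[p]] (Fin n → ℤ_[p])))

lemma mem_mulP (k : ℕ) (x : Fin n → ℤ_[p]) : x ∈ mulP p k n ↔ ∃ y, (p : ℤ_[p]) ^ k • y = x := by
  unfold mulP
  rw [LinearMap.mem_range]
  rfl

/-- Nakayama -/
lemma nakayama (M : Submodule ℤ_[p] (Fin n → ℤ_[p])) (k : ℕ) (h : mulP p k n ≤ M ⊔ mulP p (k + 1) n) :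
    mulP p k n ≤ M := by
  have hfg : (mulP p k n).FG := by
    unfold mulP
    rw [← Submodule.map_top]
    exact (Module.Finite.fg_top (R := ℤ_[p]) (M := Fin n → ℤ_[p])).map _
  have h1 : mulP p k n ≤ M ⊔ (IsLocalRing.maximalIdeal ℤ_[p]) • mulP p k n := by
    refine h.trans (sup_le_sup_left ?_ _)
    intro x hx
    obtain ⟨y, rfl⟩ := (mem_mulP _ _).1 hx
    rw [pow_succ', mul_smul]
    apply Submodule.smul_mem_smul
    · rw [PadicInt.maximalIdeal_eq_span_p]
      exact Ideal.mem_span_singleton_self _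
    · exact (mem_mulP _ _).2 ⟨y, rfl⟩
  exact Submodule.le_of_le_smul_of_le_jacobson_bot hfg (IsLocalRing.maximalIdeal_le_jacobson _) h1

lemma mulP_anti {k l : ℕ} (h : k ≤ l) : mulP p l n ≤ mulP p k n := by
  intro x hx
  obtain ⟨y, rfl⟩ := (mem_mulP _ _).1 hx
  refine (mem_mulP _ _).2 ⟨(p : ℤ_[p]) ^ (l - k) • y, ?_⟩
  rw [← mul_smul, ← pow_add, Nat.add_sub_cancel' h]

/-- the cokernel is determined by its reduction -/
lemma cok_iff {N : ℕ} (hN : 1 ≤ N) (G : Type) [AddCommGroup G] (hG : ∀ x : G, p ^ (N - 1) • x = 0)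
    (X : Matrix (Fin n) (Fin n) ℤ_[p]) :
    Nonempty (cok X ≃+ G) ↔
      CK G (AddSubgroup.closure (Set.range fun j => fun i => PadicInt.toZModPow N (X i j))) := by
  set C := AddSubgroup.closure (Set.range fun j => fun i => PadicInt.toZModPow N (X i j)) with hC
  set M := LinearMap.range X.mulVecLin with hM
  have hmemC : ∀ x : Fin n → ℤ_[p], redV p N n x ∈ C ↔ x ∈ M ⊔ mulP p N n := by
    intro x
    rw [hC, map_range]
    constructor
    · rintro ⟨v, hv⟩
      rw [Submodule.mem_sup]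
      have h1 : redV p N n (x - X.mulVec v) = 0 := by rw [map_sub, hv, sub_self]
      obtain ⟨y, hy⟩ := (redV_ker N n _).1 h1
      exact ⟨X.mulVec v, ⟨v, rfl⟩, _, (mem_mulP _ _).2 ⟨y, rfl⟩, by rw [← hy]; abel⟩
    · intro hx
      obtain ⟨a, ⟨v, rfl⟩, b, hb, rfl⟩ := Submodule.mem_sup.1 hx
      obtain ⟨y, rfl⟩ := (mem_mulP _ _).1 hb
      refine ⟨v, ?_⟩
      have h2 : redV p N n ((p : ℤ_[p]) ^ N • y) = 0 := (redV_ker N n _).2 ⟨y, rfl⟩
      rw [map_add, h2, add_zero]
      rfl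
  -- the key equivalence under the hypothesis that the multiples of `p ^ N` are in the image
  have key : mulP p N n ≤ M → Nonempty (cok X ≃+ (Fin n → ZMod (p ^ N)) ⧸ C) := by
    intro hle
    refine same_ker (M.mkQ : (Fin n → ℤ_[p]) →+ cok X)
      ((QuotientAddGroup.mk' C).comp (redV p N n)) (Submodule.mkQ_surjective M)
      ((QuotientAddGroup.mk'_surjective C).comp (redV_surj N n)) ?_
    ext x
    rw [AddMonoidHom.mem_ker, AddMonoidHom.mem_ker, AddMonoidHom.comp_apply]
    have h1 : (M.mkQ : (Fin n → ℤ_[p]) →+ cok X) x = 0 ↔ x ∈ M := Submodule.Quotient.mk_eq_zero M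
    have h2 : (QuotientAddGroup.mk' C) (redV p N n x) = 0 ↔ redV p N n x ∈ C :=
      QuotientAddGroup.eq_zero_iff _
    rw [h1, h2, hmemC, sup_eq_left.2 hle]
  constructor
  · rintro ⟨e⟩
    have h1 : mulP p (N - 1) n ≤ M := by
      intro x hx
      obtain ⟨y, rfl⟩ := (mem_mulP _ _).1 hx
      rw [← Submodule.Quotient.mk_eq_zero M]
      apply e.injective
      rw [map_zero, ← Nat.cast_pow, Nat.cast_smul_eq_nsmul, Submodule.Quotient.mk_smul, map_nsmul,
        hG]
    obtain ⟨e'⟩ := key ((mulP_anti (by omega)).trans h1)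
    exact ⟨e'.symm.trans e⟩
  · rintro ⟨e⟩
    have h1 : mulP p (N - 1) n ≤ M ⊔ mulP p (N - 1 + 1) n := by
      intro x hx
      obtain ⟨y, rfl⟩ := (mem_mulP _ _).1 hx
      rw [Nat.sub_add_cancel hN, ← hmemC, ← QuotientAddGroup.eq_zero_iff]
      apply e.injective
      have h2 : redV p N n ((p : ℤ_[p]) ^ (N - 1) • y) = p ^ (N - 1) • redV p N n y := by
        rw [← Nat.cast_pow, Nat.cast_smul_eq_nsmul, map_nsmul]
      rw [h2, QuotientAddGroup.mk_nsmul, map_nsmul, hG, map_zero]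
    have h3 := nakayama M (N - 1) h1
    obtain ⟨e'⟩ := key ((mulP_anti (by omega)).trans h3)
    exact ⟨e'.trans e⟩

/-- invertibility modulo `p` -/
lemma det_iff {N : ℕ} (hN : 1 ≤ N) (X : Matrix (Fin n) (Fin n) ℤ_[p]) :
    (X.map (PadicInt.toZMod (p := p))).det ≠ 0 ↔
      AddSubgroup.closure (Set.range fun j => fun i => PadicInt.toZModPow N (X i j)) = ⊤ := by
  have h1 : (X.map (PadicInt.toZMod (p := p))).det = PadicInt.toZMod X.det := by
    rw [RingHom.map_det]; rfl
  have h2 : PadicInt.toZMod X.det ≠ 0 ↔ IsUnit X.det := by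
    rw [← not_iff_not, not_not, ← RingHom.mem_ker, PadicInt.ker_toZMod,
      IsLocalRing.mem_maximalIdeal]
    rfl
  rw [h1, h2]
  constructor
  · intro hu
    rw [eq_top_iff]
    intro x _
    rw [map_range]
    obtain ⟨y, rfl⟩ := redV_surj (p := p) N n x
    have hu' : IsUnit X := (Matrix.isUnit_iff_isUnit_det X).2 hu
    obtain ⟨B, hB⟩ := hu'.exists_right_inv
    exact ⟨B.mulVec y, by rw [Matrix.mulVec_mulVec, hB, Matrix.one_mulVec]⟩
  · intro htop
    -- the columns generate modulo `p ^ N`, so the image is everything by Nakayama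
    have h3 : mulP p 0 n ≤ LinearMap.range X.mulVecLin := by
      apply nakayama
      intro x _
      have hx : redV p N n x ∈
          AddSubgroup.closure (Set.range fun j => fun i => PadicInt.toZModPow N (X i j)) := by
        rw [htop]; trivial
      obtain ⟨v, hv⟩ := (map_range N X _).1 hx
      have h4 : redV p N n (x - X.mulVec v) = 0 := by rw [map_sub, hv, sub_self]
      obtain ⟨y, hy⟩ := (redV_ker N n _).1 h4
      have h5 : x = X.mulVec v + (p : ℤ_[p]) ^ N • y := by rw [← hy]; abel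
      rw [h5]
      exact Submodule.add_mem_sup ⟨v, rfl⟩ (mulP_anti (by omega) ((mem_mulP _ _).2 ⟨y, rfl⟩))
    have h6 : Function.Surjective X.mulVec := by
      intro x
      have : x ∈ mulP p 0 n := (mem_mulP _ _).2 ⟨x, by rw [pow_zero, one_smul]⟩
      obtain ⟨v, hv⟩ := h3 this
      exact ⟨v, hv⟩
    obtain ⟨B, hB⟩ := Matrix.mulVec_surjective_iff_exists_right_inverse.1 h6
    rw [← Matrix.isUnit_iff_isUnit_det]
    exact IsUnit.of_mul_eq_one B hB

end Pool.Agent.V11329.Coker
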