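import Pool.Agent.V11329.Quot

/-! The law of the cokernel of a uniform square matrix (Friedman–Washington). -/

set_option autoImplicit false

namespace Pool.Agent.V11329.FW

open AddSubgroup Pool.Agent.V11329.Avg Pool.Agent.V11329.Chain Pool.Agent.V11329.Quot

variable {p N : ℕ}

/-- reduction modulo `p` -/
noncomputable def red (p N : ℕ) (hN : 1 ≤ N) (K : ℕ) : (Fin K → ZMod (p ^ N)) →+ (Fin K → ZMod p) :=
  AddMonoidHom.mk' (fun x i => ZMod.castHom (dvd_pow_self p (by omega : N ≠ 0)) (ZMod p) (x i))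
    (fun x y => by funext i; exact map_add _ _ _)

lemma red_surj (hN : 1 ≤ N) (K : ℕ) : Function.Surjective (red p N hN K) := by
  intro y
  choose x hx using fun i => ZMod.castHom_surjective (dvd_pow_self p (by omega : N ≠ 0)) (y i)
  exact ⟨x, funext hx⟩

lemma cast_eq_zero (hp : p.Prime) (hN : 1 ≤ N) (a : ZMod (p ^ N)) :
    ZMod.castHom (dvd_pow_self p (by omega : N ≠ 0)) (ZMod p) a = 0 ↔ ∃ b, p • b = a := by
  have : NeZero (p ^ N) := ⟨(pow_pos hp.pos N).ne'⟩
  constructor
  · intro h
    rw [← ZMod.natCast_zmod_val a, map_natCast, ZMod.natCast_eq_zero_iff] at h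
    obtain ⟨c, hc⟩ := h
    refine ⟨(c : ZMod (p ^ N)), ?_⟩
    rw [nsmul_eq_mul, ← Nat.cast_mul, ← hc, ZMod.natCast_zmod_val]
  · rintro ⟨b, rfl⟩
    rw [map_nsmul, nsmul_eq_mul, ZMod.natCast_self, zero_mul]

lemma red_ker (hp : p.Prime) (hN : 1 ≤ N) (K : ℕ) :
    (red p N hN K).ker = pS p (Fin K → ZMod (p ^ N)) := by
  ext x
  rw [AddMonoidHom.mem_ker, mem_pS]
  constructor
  · intro h
    have h1 : ∀ i, ∃ b, p • b = x i := fun i =>
      (cast_eq_zero hp hN (x i)).1 (congrFun h i)
    choose b hb using h1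
    exact ⟨b, funext hb⟩
  · rintro ⟨y, rfl⟩
    funext i
    exact (cast_eq_zero hp hN _).2 ⟨y i, rfl⟩

lemma pS_index (hp : p.Prime) (hN : 1 ≤ N) (K : ℕ) :
    (pS p (Fin K → ZMod (p ^ N))).index = p ^ K := by
  rw [← red_ker hp hN, index_ker]
  have h1 : (red p N hN K).range = ⊤ := AddMonoidHom.range_eq_top.2 (red_surj hN K)
  rw [h1, Nat.card_congr (Equiv.subtypeUnivEquiv (fun x => AddSubgroup.mem_top x)),
    Nat.card_fun, Nat.card_zmod, Nat.card_fin]

lemma pow_smul_V (K : ℕ) (x : Fin K → ZMod (p ^ N)) : p ^ N • x = 0 := by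
  funext i
  rw [Pi.smul_apply, nsmul_eq_mul, ZMod.natCast_self, zero_mul]; rfl

lemma torsion_V (hp : p.Prime) (hN : 1 ≤ N) (K : ℕ) (x : Fin K → ZMod (p ^ N)) (hx : p • x = 0) :
    ∃ y, p ^ (N - 1) • y = x := by
  have : NeZero (p ^ N) := ⟨(pow_pos hp.pos N).ne'⟩
  have h1 : ∀ i, ∃ b, p ^ (N - 1) • b = x i := by
    intro i
    have h2 : p • x i = 0 := congrFun hx i
    have h3 : ((p * (x i).val : ℕ) : ZMod (p ^ N)) = 0 := by
      rw [Nat.cast_mul, ZMod.natCast_zmod_val, ← nsmul_eq_mul]; exact h2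
    rw [ZMod.natCast_eq_zero_iff] at h3
    have h4 : p ^ (N - 1) ∣ (x i).val := by
      have h5 : p ^ N = p * p ^ (N - 1) := by
        rw [← pow_succ']; congr 1; omega
      exact Nat.dvd_of_mul_dvd_mul_left hp.pos ((dvd_of_eq h5.symm).trans h3)
    obtain ⟨c, hc⟩ := h4
    refine ⟨(c : ZMod (p ^ N)), ?_⟩
    rw [nsmul_eq_mul, ← Nat.cast_mul, ← hc, ZMod.natCast_zmod_val]
  choose b hb using h1
  exact ⟨b, funext hb⟩

/-- index of the multiples of `p` equals the number of elements killed by `p` -/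
lemma index_pS_eq {W : Type*} [AddCommGroup W] [Finite W] :
    (pS p W).index = Nat.card {x : W // p • x = 0} := by
  have h1 := card_mul_index (pS p W)
  have h2 : (nsmulAddMonoidHom p : W →+ W).ker.index = Nat.card (pS p W) := index_ker _
  have h3 := card_mul_index (nsmulAddMonoidHom p : W →+ W).ker
  rw [h2] at h3
  have h4 : Nat.card (nsmulAddMonoidHom p : W →+ W).ker = Nat.card {x : W // p • x = 0} := by
    apply Nat.card_congr
    exact Equiv.subtypeEquivRight (fun x => by rw [AddMonoidHom.mem_ker]; rfl)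
  rw [h4, ← h1, mul_comm] at h3
  exact (Nat.eq_of_mul_eq_mul_left Nat.card_pos h3).symm

lemma index_pS_sub (hp : p.Prime) (hN : 1 ≤ N) (K : ℕ) {G : Type} [AddCommGroup G]
    (hG : ∀ x : G, p ^ (N - 1) • x = 0) (M : AddSubgroup (Fin K → ZMod (p ^ N))) (hM : CK G M) :
    (pS p M).index = p ^ K := by
  have : NeZero (p ^ N) := ⟨(pow_pos hp.pos N).ne'⟩
  rw [index_pS_eq, ← pS_index hp hN K, index_pS_eq]
  obtain ⟨e⟩ := hM
  apply Nat.card_congr
  refine ⟨fun x => ⟨x.1.1, by have := x.2; exact congrArg Subtype.val this⟩,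
    fun x => ⟨⟨x.1, ?_⟩, ?_⟩, fun x => rfl, fun x => rfl⟩
  · obtain ⟨y, hy⟩ := torsion_V hp hN K x.1 x.2
    rw [← hy, ← QuotientAddGroup.eq_zero_iff, QuotientAddGroup.mk_nsmul]
    apply e.injective
    rw [map_nsmul, hG, map_zero]
  · exact Subtype.ext x.2

lemma J_eq_top_iff {W : Type*} [AddCommGroup W] (hW : ∀ x : W, p ^ N • x = 0) {m : ℕ}
    (z : Fin m → W) : J (pS p W) z = ⊤ ↔ AddSubgroup.closure (Set.range z) = ⊤ := by
  constructor
  · intro h
    apply frattini hW
    rw [sup_comm]; exact h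
  · intro h
    unfold J
    rw [h, sup_top_eq]

lemma gen_prob (hp : p.Prime) {W : Type*} [AddCommGroup W] [Fintype W]
    (hW : ∀ x : W, p ^ N • x = 0) {K : ℕ} (hidx : (pS p W).index = p ^ K) :
    av (fun z : Fin K → W => I (AddSubgroup.closure (Set.range z) = ⊤)) = cc p K K := by
  rw [← pI_id hp (m := K) (pS p W) smul_mem_pS K hidx]
  unfold pI
  refine av_congr fun z => I_congr ?_
  rw [← J_eq_top_iff hW]
  unfold Ind
  rw [hidx]
  constructor
  · intro h
    simp only [AddMonoidHom.id_apply]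
    rw [h, index_top, one_mul]
  · intro h
    exact index_eq_one.1 (Nat.eq_of_mul_eq_mul_right (pow_pos hp.pos K) (by rw [one_mul]; exact h))

/-- average over tuples of a product indicator -/
lemma av_forall {W : Type*} [Fintype W] (P : W → Prop) (K : ℕ) :
    av (fun y : Fin K → W => I (∀ i, P (y i))) = (av (fun w => I (P w))) ^ K := by
  induction K with
  | zero =>
    rw [pow_zero]
    unfold av
    simp [I]
  | succ K ih =>
    rw [av_cons, pow_succ', ← av_mul_right]
    refine av_congr fun w => ?_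
    rw [← ih, ← av_mul_left]
    refine av_congr fun ω => ?_
    rw [← I_and]
    apply I_congr
    rw [Fin.forall_fin_succ]
    simp

lemma av_mem_sub {W : Type*} [AddCommGroup W] [Fintype W] (S : AddSubgroup W) :
    av (fun w : W => I (w ∈ S)) = 1 / (S.index : ℝ) := by
  have := av_mem (AddMonoidHom.id W) S
  rwa [AddSubgroup.comap_id] at this

lemma prob_closure_eq (hp : p.Prime) (hN : 1 ≤ N) [Fintype (ZMod (p ^ N))] (K : ℕ)
    {G : Type} [AddCommGroup G]
    (hG : ∀ x : G, p ^ (N - 1) • x = 0) (M : AddSubgroup (Fin K → ZMod (p ^ N))) (hM : CK G M) :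
    av (fun y : Fin K → (Fin K → ZMod (p ^ N)) => I (AddSubgroup.closure (Set.range y) = M))
      = (1 / (Nat.card G : ℝ)) ^ K * cc p K K := by
  classical
  have hMfin : Fintype M := Fintype.ofFinite _
  have h1 := gen_prob (N := N) (W := M) hp (fun x => Subtype.ext (pow_smul_V K x.1))
    (index_pS_sub hp hN K hG M hM)
  rw [← h1]
  have hcard : Fintype.card (Fin K → ZMod (p ^ N)) = Fintype.card M * Nat.card G := by
    have h2 := card_mul_index M
    rw [index_eq_card, Nat.card_congr hM.some.toEquiv] at h2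
    rw [← Nat.card_eq_fintype_card, ← Nat.card_eq_fintype_card, h2]
  have hsum : ∑ y : Fin K → (Fin K → ZMod (p ^ N)), I (AddSubgroup.closure (Set.range y) = M)
      = ∑ z : Fin K → M, I (AddSubgroup.closure (Set.range z) = ⊤) := by
    have hinj : Function.Injective (fun z : Fin K → M => fun i => (z i : Fin K → ZMod (p ^ N))) := by
      intro z z' h
      funext i
      exact Subtype.ext (congrFun h i)
    have hcl : ∀ z : Fin K → M, (AddSubgroup.closure (Set.range z) = ⊤ ↔
        AddSubgroup.closure (Set.range (fun i => (z i : Fin K → ZMod (p ^ N)))) = M) := by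
      intro z
      have h3 : AddSubgroup.closure (Set.range (fun i => (z i : Fin K → ZMod (p ^ N))))
          = (AddSubgroup.closure (Set.range z)).map M.subtype := by
        rw [AddMonoidHom.map_closure, ← Set.range_comp]; rfl
      rw [h3]
      constructor
      · intro h; rw [h, ← AddMonoidHom.range_eq_map, AddSubgroup.range_subtype]
      · intro h
        apply AddSubgroup.map_injective (AddSubgroup.subtype_injective M)
        rw [h, ← AddMonoidHom.range_eq_map, AddSubgroup.range_subtype]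
    rw [Finset.sum_congr rfl (fun z _ => I_congr (hcl z)),
      ← Finset.sum_image (f := fun y : Fin K → (Fin K → ZMod (p ^ N)) =>
        I (AddSubgroup.closure (Set.range y) = M)) (s := Finset.univ)
        (g := fun z : Fin K → M => fun i => (z i : Fin K → ZMod (p ^ N)))
        (fun z _ z' _ h => hinj h)]
    symm
    apply Finset.sum_subset (Finset.subset_univ _)
    intro y _ hy
    apply I_false
    intro hyM
    apply hy
    rw [Finset.mem_image]
    refine ⟨fun i => ⟨y i, ?_⟩, Finset.mem_univ _, rfl⟩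
    rw [← hyM]
    exact AddSubgroup.subset_closure (Set.mem_range_self i)
  unfold av
  have hc1 : Fintype.card (Fin K → (Fin K → ZMod (p ^ N)))
      = (Fintype.card (Fin K → ZMod (p ^ N))) ^ K := by
    rw [Fintype.card_fun (α := Fin K) (β := Fin K → ZMod (p ^ N)), Fintype.card_fin]
  have hc2 : Fintype.card (Fin K → M) = (Fintype.card M) ^ K := by
    rw [Fintype.card_fun, Fintype.card_fin]
  rw [hsum, hc1, hc2, hcard]
  have hM0 : (Fintype.card M : ℝ) ≠ 0 := by
    have : Nonempty M := ⟨0⟩
    exact_mod_cast Fintype.card_ne_zero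
  push_cast
  rw [mul_pow, one_div, inv_pow, mul_comm ((Nat.card G : ℝ) ^ K)⁻¹, div_mul_eq_mul_div,
    mul_comm ((Fintype.card M : ℝ) ^ K)]
  by_cases hG0 : (Nat.card G : ℝ) = 0
  · exfalso
    have h2 := card_mul_index M
    rw [index_eq_card, Nat.card_congr hM.some.toEquiv] at h2
    have h3 : Nat.card G = 0 := by exact_mod_cast hG0
    rw [h3, mul_zero] at h2
    have : Nonempty (Fin K → ZMod (p ^ N)) := ⟨0⟩
    exact (Nat.card_pos (α := Fin K → ZMod (p ^ N))).ne h2
  · field_simp

/-- surjections onto `G` -/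
lemma card_surj (V G : Type) [AddCommGroup V] [AddCommGroup G] [Finite V] [Finite G] :
    Nat.card {M : AddSubgroup V // CK G M} * Nat.card (G ≃+ G)
      = Nat.card {φ : V →+ G // Function.Surjective φ} := by
  classical
  have hfin : Fintype {M : AddSubgroup V // CK G M} := Fintype.ofFinite _
  have e1 : (Σ M : {M : AddSubgroup V // CK G M}, (V ⧸ M.1 ≃+ G)) ≃
      {φ : V →+ G // Function.Surjective φ} := by
    refine Equiv.ofBijective (fun q => ⟨(q.2 : V ⧸ q.1.1 →+ G).comp (QuotientAddGroup.mk' q.1.1),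
      q.2.surjective.comp (QuotientAddGroup.mk'_surjective _)⟩) ⟨?_, ?_⟩
    · rintro ⟨⟨M, hM⟩, e⟩ ⟨⟨M', hM'⟩, e'⟩ h
      have h1 : (e : V ⧸ M →+ G).comp (QuotientAddGroup.mk' M)
          = (e' : V ⧸ M' →+ G).comp (QuotientAddGroup.mk' M') := congrArg Subtype.val h
      have h2 : M = M' := by
        have hk : ∀ (M : AddSubgroup V) (e : V ⧸ M ≃+ G),
            ((e : V ⧸ M →+ G).comp (QuotientAddGroup.mk' M)).ker = M := by
          intro M e
          ext x
          rw [AddMonoidHom.mem_ker, AddMonoidHom.comp_apply]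
          constructor
          · intro hx
            have : (QuotientAddGroup.mk' M) x = 0 := e.injective (by simpa using hx)
            exact (QuotientAddGroup.eq_zero_iff x).1 this
          · intro hx
            have : (QuotientAddGroup.mk' M) x = 0 := (QuotientAddGroup.eq_zero_iff x).2 hx
            rw [this, map_zero]
        rw [← hk M e, h1, hk]
      subst h2
      have h3 : e = e' := by
        apply AddEquiv.ext
        intro q
        obtain ⟨v, rfl⟩ := QuotientAddGroup.mk_surjective q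
        exact DFunLike.congr_fun h1 v
      rw [h3]
    · rintro ⟨φ, hφ⟩
      refine ⟨⟨⟨φ.ker, ⟨QuotientAddGroup.quotientKerEquivOfSurjective φ hφ⟩⟩,
        QuotientAddGroup.quotientKerEquivOfSurjective φ hφ⟩, ?_⟩
      apply Subtype.ext
      ext v
      rfl
  rw [← Nat.card_congr e1, Nat.card_sigma]
  have h2 : ∀ M : {M : AddSubgroup V // CK G M}, Nat.card (V ⧸ M.1 ≃+ G) = Nat.card (G ≃+ G) := by
    rintro ⟨M, ⟨e⟩⟩
    apply Nat.card_congr
    exact ⟨fun f => e.symm.trans f, fun f => e.trans f, fun f => by ext; simp,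
      fun f => by ext; simp⟩
  rw [Finset.sum_congr rfl fun M _ => h2 M, Finset.sum_const, Finset.card_univ, smul_eq_mul,
    Nat.card_eq_fintype_card]

/-- the probability that `K` uniform elements generate `G` -/
noncomputable def gam (K : ℕ) (G : Type) [AddCommGroup G] [Fintype G] : ℝ :=
  av (fun y : Fin K → G => I (AddSubgroup.closure (Set.range y) = ⊤))

lemma card_surj_eq (hp : p.Prime) (K : ℕ) (G : Type) [AddCommGroup G] [Fintype G]
    (hG : ∀ x : G, p ^ N • x = 0) :
    (Nat.card {φ : (Fin K → ZMod (p ^ N)) →+ G // Function.Surjective φ} : ℝ)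
      = (Nat.card G : ℝ) ^ K * gam K G := by
  classical
  have : NeZero (p ^ N) := ⟨(pow_pos hp.pos N).ne'⟩
  have hext : ∀ φ : (Fin K → ZMod (p ^ N)) →+ G, φ = L hG (fun i => φ (Pi.single i 1)) := by
    intro φ
    refine DFunLike.ext _ _ fun a => ?_
    rw [L_apply hp]
    conv_lhs => rw [← Finset.univ_sum_single a, map_sum]
    refine Finset.sum_congr rfl fun i _ => ?_
    rw [← map_nsmul]
    congr 1
    rw [← Pi.single_smul, nsmul_eq_mul, mul_one, ZMod.natCast_zmod_val]
  have e : {φ : (Fin K → ZMod (p ^ N)) →+ G // Function.Surjective φ} ≃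
      {y : Fin K → G // AddSubgroup.closure (Set.range y) = ⊤} := by
    refine ⟨fun φ => ⟨fun i => φ.1 (Pi.single i 1), ?_⟩, fun y => ⟨L hG y.1, ?_⟩, ?_, ?_⟩
    · rw [← L_range hp hG, ← hext, AddMonoidHom.range_eq_top]; exact φ.2
    · rw [← AddMonoidHom.range_eq_top, L_range hp]; exact y.2
    · intro φ; exact Subtype.ext (hext φ.1).symm
    · intro y
      apply Subtype.ext
      funext i
      exact L_single hp hG y.1 i
  rw [Nat.card_congr e]
  unfold gam av
  have h1 : ∑ y : Fin K → G, I (AddSubgroup.closure (Set.range y) = ⊤)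
      = (Nat.card {y : Fin K → G // AddSubgroup.closure (Set.range y) = ⊤} : ℝ) := by
    unfold I
    rw [Finset.sum_boole, Nat.card_eq_fintype_card, Fintype.card_subtype]
  rw [h1, Fintype.card_fun, Fintype.card_fin, Nat.card_eq_fintype_card (α := G)]
  have : (Fintype.card G : ℝ) ≠ 0 := by
    have : Nonempty G := ⟨0⟩
    exact_mod_cast Fintype.card_ne_zero
  push_cast
  field_simp

/-- the exact formula -/
lemma rho_eq (hp : p.Prime) (hN : 1 ≤ N) [Fintype (ZMod (p ^ N))] (K : ℕ)
    (G : Type) [AddCommGroup G] [Fintype G]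
    (hG : ∀ x : G, p ^ (N - 1) • x = 0) :
    rho p N K G = gam K G * cc p K K / (Nat.card (G ≃+ G) : ℝ) := by
  classical
  have hG' : ∀ x : G, p ^ N • x = 0 := by
    intro x
    have : N = (N - 1) + 1 := by omega
    rw [this, pow_succ', mul_smul, hG, smul_zero]
  unfold rho
  have hfin : Fintype (AddSubgroup (Fin K → ZMod (p ^ N))) := Fintype.ofFinite _
  have h1 : ∀ y : Fin K → (Fin K → ZMod (p ^ N)), I (CK G (AddSubgroup.closure (Set.range y)))
      = ∑ M : AddSubgroup (Fin K → ZMod (p ^ N)), I (CK G M) *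
        I (AddSubgroup.closure (Set.range y) = M) := by
    intro y
    rw [Finset.sum_eq_single (AddSubgroup.closure (Set.range y))]
    · rw [I_true rfl (P := AddSubgroup.closure (Set.range y) = _), mul_one]
    · intro M _ hM
      rw [I_false (P := AddSubgroup.closure (Set.range y) = M) (fun h => hM h.symm), mul_zero]
    · intro h; exact absurd (Finset.mem_univ _) h
  rw [av_congr h1, av_sum]
  have h2 : ∀ M : AddSubgroup (Fin K → ZMod (p ^ N)),
      av (fun y : Fin K → (Fin K → ZMod (p ^ N)) => I (CK G M) *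
        I (AddSubgroup.closure (Set.range y) = M))
      = I (CK G M) * ((1 / (Nat.card G : ℝ)) ^ K * cc p K K) := by
    intro M
    rw [av_mul_left]
    by_cases hM : CK G M
    · rw [prob_closure_eq hp hN K hG M hM]
    · rw [I_false hM]; ring
  rw [Finset.sum_congr rfl fun M _ => h2 M, ← Finset.sum_mul]
  have h3 : ∑ M : AddSubgroup (Fin K → ZMod (p ^ N)), I (CK G M)
      = (Nat.card {M : AddSubgroup (Fin K → ZMod (p ^ N)) // CK G M} : ℝ) := by
    unfold I
    rw [Finset.sum_boole, Nat.card_eq_fintype_card, Fintype.card_subtype]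
  rw [h3]
  have h4 := card_surj (Fin K → ZMod (p ^ N)) G
  have h5 := card_surj_eq (N := N) hp K G hG'
  rw [← h4] at h5
  push_cast at h5
  have hA : (Nat.card (G ≃+ G) : ℝ) ≠ 0 := by
    have : Nonempty (G ≃+ G) := ⟨AddEquiv.refl G⟩
    have : Finite (G ≃+ G) := Finite.of_injective (fun e : G ≃+ G => (e : G → G))
      (fun a b h => AddEquiv.ext (congrFun h))
    exact_mod_cast Nat.card_pos.ne'
  have hG0 : (Nat.card G : ℝ) ≠ 0 := by
    have : Nonempty G := ⟨0⟩
    exact_mod_cast Nat.card_pos.ne'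
  rw [eq_div_iff hA]
  calc (Nat.card {M : AddSubgroup (Fin K → ZMod (p ^ N)) // CK G M} : ℝ)
        * ((1 / (Nat.card G : ℝ)) ^ K * cc p K K) * (Nat.card (G ≃+ G) : ℝ)
      = ((Nat.card {M : AddSubgroup (Fin K → ZMod (p ^ N)) // CK G M} : ℝ)
          * (Nat.card (G ≃+ G) : ℝ)) * ((1 / (Nat.card G : ℝ)) ^ K * cc p K K) := by ring
    _ = (Nat.card G : ℝ) ^ K * gam K G * ((1 / (Nat.card G : ℝ)) ^ K * cc p K K) := by rw [h5]
    _ = gam K G * cc p K K := by
        rw [one_div, inv_pow]
        field_simp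

/-- generation probability tends to one -/
lemma gam_tendsto (G : Type) [AddCommGroup G] [Fintype G] :
    Filter.Tendsto (fun K => gam K G) Filter.atTop (nhds 1) := by
  classical
  have hfin : Fintype (AddSubgroup G) := Fintype.ofFinite _
  have hub : ∀ K, gam K G ≤ 1 := by
    intro K
    unfold gam
    refine (av_mono fun _ => I_le_one _).trans ?_
    rw [av_const]
  have hlb : ∀ K, 1 - (Fintype.card (AddSubgroup G) : ℝ) * (1 / 2) ^ K ≤ gam K G := by
    intro K
    have h1 : ∀ y : Fin K → G, 1 - I (AddSubgroup.closure (Set.range y) = ⊤)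
        ≤ ∑ H : AddSubgroup G, (if H = ⊤ then (0 : ℝ) else I (∀ i, y i ∈ H)) := by
      intro y
      have hnn : ∀ H : AddSubgroup G, 0 ≤ (if H = ⊤ then (0 : ℝ) else I (∀ i, y i ∈ H)) := by
        intro H
        split_ifs
        · exact le_rfl
        · exact I_nonneg _
      by_cases h : AddSubgroup.closure (Set.range y) = ⊤
      · rw [I_true h, sub_self]
        exact Finset.sum_nonneg fun H _ => hnn H
      · rw [I_false h, sub_zero]
        have h2 : (if AddSubgroup.closure (Set.range y) = ⊤ then (0 : ℝ)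
            else I (∀ i, y i ∈ AddSubgroup.closure (Set.range y))) = 1 := by
          rw [if_neg h, I_true]
          exact fun i => AddSubgroup.subset_closure (Set.mem_range_self i)
        rw [← h2]
        exact Finset.single_le_sum (f := fun H : AddSubgroup G =>
          (if H = ⊤ then (0 : ℝ) else I (∀ i, y i ∈ H))) (fun H _ => hnn H) (Finset.mem_univ _)
    have h3 := av_mono h1
    rw [av_sub, av_const, av_sum] at h3
    have h4 : ∀ H : AddSubgroup G,
        av (fun y : Fin K → G => (if H = ⊤ then (0 : ℝ) else I (∀ i, y i ∈ H))) ≤ (1 / 2) ^ K := by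
      intro H
      by_cases hH : H = ⊤
      · simp only [hH, if_true]
        rw [av_const]; positivity
      · simp only [hH, if_false]
        rw [av_forall (fun w => w ∈ H) K, av_mem_sub]
        apply pow_le_pow_left₀ (by positivity)
        apply one_div_le_one_div_of_le (by norm_num)
        have h5 : H.index ≠ 1 := fun h => hH (index_eq_one.1 h)
        have h6 : H.index ≠ 0 := index_ne_zero_of_finite
        exact_mod_cast (by omega : 2 ≤ H.index)
    have h5 := Finset.sum_le_sum (s := Finset.univ) fun H (_ : H ∈ Finset.univ) => h4 H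
    rw [Finset.sum_const, Finset.card_univ, nsmul_eq_mul] at h5
    unfold gam
    linarith
  refine tendsto_of_tendsto_of_tendsto_of_le_of_le ?_ tendsto_const_nhds hlb hub
  have h := (tendsto_pow_atTop_nhds_zero_of_lt_one (r := (1/2 : ℝ)) (by norm_num)
    (by norm_num)).const_mul (Fintype.card (AddSubgroup G) : ℝ)
  have h2 := h.const_sub 1
  simpa using h2

/-- `∏_{i<n} (1 - p^{-(i+1)})` -/
noncomputable def ee (p n : ℕ) : ℝ := ∏ i ∈ Finset.range n, (1 - 1 / (p : ℝ) ^ (i + 1))

lemma cc_self (p K : ℕ) : cc p K K = ee p K := by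
  unfold cc ee
  rw [← Finset.prod_range_reflect]
  refine Finset.prod_congr rfl fun j hj => ?_
  rw [Finset.mem_range] at hj
  rw [show K - (K - 1 - j) = j + 1 by omega]

lemma cc_mul (p m K : ℕ) : cc p m (m + K) * ee p K = ee p (m + K) := by
  unfold cc ee
  rw [add_comm m K, Finset.prod_range_add, mul_comm]
  congr 1
  rw [← Finset.prod_range_reflect]
  refine Finset.prod_congr rfl fun j hj => ?_
  rw [Finset.mem_range] at hj
  rw [show K + m - (m - 1 - j) = K + j + 1 by omega]

/-- the infinite product `∏_{i ≥ 1} (1 - p^{-i})` -/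
noncomputable def cinf (p : ℕ) : ℝ := ∏' i : ℕ, (1 - 1 / (p : ℝ) ^ (i + 1))

lemma ee_tendsto (hp : p.Prime) : Filter.Tendsto (ee p) Filter.atTop (nhds (cinf p)) := by
  have hsum : Summable (fun i : ℕ => ‖-(1 / (p : ℝ) ^ (i + 1))‖) := by
    have h1 : ∀ i : ℕ, ‖-(1 / (p : ℝ) ^ (i + 1))‖ = (1 / (p : ℝ)) * (1 / (p : ℝ)) ^ i := by
      intro i
      rw [norm_neg, Real.norm_of_nonneg (by positivity), pow_succ, one_div_pow]
      field_simp
    simp_rw [h1]
    apply Summable.mul_left
    apply summable_geometric_of_lt_one (by positivity)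
    rw [div_lt_one (by exact_mod_cast hp.pos)]
    exact_mod_cast hp.one_lt
  have hmul := multipliable_one_add_of_summable hsum
  have := hmul.hasProd.tendsto_prod_nat
  unfold ee cinf
  simpa [sub_eq_add_neg] using this

lemma ee_pos (hp : p.Prime) (n : ℕ) : 0 < ee p n := by
  unfold ee
  refine Finset.prod_pos fun i _ => ?_
  have h1 : (1 : ℝ) < (p : ℝ) ^ (i + 1) := one_lt_pow₀ (by exact_mod_cast hp.one_lt) (by omega)
  have := (div_lt_one (by positivity : (0 : ℝ) < (p : ℝ) ^ (i + 1))).2 h1
  linarith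

end Pool.Agent.V11329.FW
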