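import Pool.Agent.V11329.FW
import Pool.Agent.V11329.CokDefs

/-! Haar measure on the `p`-adic integers and its reductions. -/

set_option autoImplicit false

namespace Pool.Agent.V11329.Haar

open MeasureTheory Pool.Agent.V11329.Avg Pool.Agent.V11329.CokDefs

/-- a map to a finite type with uniform image law -/
def Unif {A B : Type*} [MeasurableSpace A] [Fintype B] (μ : Measure A) (φ : A → B) : Prop :=
  ∀ b, MeasurableSet (φ ⁻¹' {b}) ∧ μ (φ ⁻¹' {b}) = ((Fintype.card B : ENNReal))⁻¹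

lemma Unif.pi {A B : Type*} [MeasurableSpace A] [Fintype B] {μ : Measure A} [SigmaFinite μ]
    {φ : A → B} (h : Unif μ φ) (n : ℕ) [Fintype (Fin n → B)] :
    Unif (Measure.pi fun _ : Fin n => μ) (fun ω i => φ (ω i)) := by
  intro b
  have h1 : (fun (ω : Fin n → A) i => φ (ω i)) ⁻¹' {b} = Set.pi Set.univ (fun i => φ ⁻¹' {b i}) := by
    ext ω
    simp only [Set.mem_preimage, Set.mem_singleton_iff, Set.mem_pi, Set.mem_univ, true_implies]
    exact funext_iff
  rw [h1]
  refine ⟨MeasurableSet.univ_pi fun i => (h (b i)).1, ?_⟩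
  rw [Measure.pi_pi, Finset.prod_congr rfl fun i _ => (h (b i)).2, Finset.prod_const,
    Finset.card_univ, Fintype.card_fin]
  have : Fintype.card (Fin n → B) = Fintype.card B ^ n := by
    rw [← Nat.card_eq_fintype_card, Nat.card_fun, Nat.card_fin, Nat.card_eq_fintype_card]
  rw [this, Nat.cast_pow, ENNReal.inv_pow]

lemma Unif.prob {A B : Type*} [MeasurableSpace A] [Fintype B] {μ : Measure A}
    {φ : A → B} (h : Unif μ φ) (E : Set B) :
    μ.real (φ ⁻¹' E) = av (fun b => I (b ∈ E)) := by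
  classical
  have h1 : φ ⁻¹' E = ⋃ b ∈ (Finset.univ.filter (fun b => b ∈ E)), φ ⁻¹' {b} := by
    ext a
    simp
  have h2 : μ (φ ⁻¹' E) = ∑ b ∈ (Finset.univ.filter (fun b => b ∈ E)), μ (φ ⁻¹' {b}) := by
    rw [h1]
    apply measure_biUnion_finset
    · intro b _ b' _ hbb
      show Disjoint (φ ⁻¹' {b}) (φ ⁻¹' {b'})
      rw [Set.disjoint_left]
      intro a ha ha'
      apply hbb
      rw [Set.mem_preimage, Set.mem_singleton_iff] at ha ha'
      rw [← ha, ← ha']
    · exact fun b _ => (h b).1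
  rw [Measure.real, h2, Finset.sum_congr rfl fun b _ => (h b).2, Finset.sum_const, nsmul_eq_mul,
    ENNReal.toReal_mul, ENNReal.toReal_natCast, ENNReal.toReal_inv, ENNReal.toReal_natCast]
  unfold av I
  rw [Finset.sum_boole]
  rfl

section
variable (p : ℕ) [Fact p.Prime]

lemma toZModPow_surj (N : ℕ) : Function.Surjective (PadicInt.toZModPow (p := p) N) := by
  intro b
  have : NeZero (p ^ N) := ⟨pow_ne_zero _ (Fact.out : p.Prime).ne_zero⟩
  exact ⟨(b.val : ℤ_[p]), by rw [map_natCast, ZMod.natCast_zmod_val]⟩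

lemma toZModPow_fiber (N : ℕ) (z0 : ℤ_[p]) :
    (PadicInt.toZModPow (p := p) N) ⁻¹' {PadicInt.toZModPow N z0}
      = Metric.closedBall z0 ((p : ℝ) ^ (-N : ℤ)) := by
  ext z
  rw [Set.mem_preimage, Set.mem_singleton_iff, Metric.mem_closedBall, dist_eq_norm,
    PadicInt.norm_le_pow_iff_mem_span_pow, ← PadicInt.ker_toZModPow, RingHom.mem_ker, map_sub,
    sub_eq_zero]

lemma haarZp_prob : @IsProbabilityMeasure _ (borel ℤ_[p]) (haarZp p) := by
  let _ : MeasurableSpace ℤ_[p] := borel ℤ_[p]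
  have : BorelSpace ℤ_[p] := ⟨rfl⟩
  refine ⟨?_⟩
  show Measure.addHaarMeasure (⊤ : TopologicalSpace.PositiveCompacts ℤ_[p]) Set.univ = 1
  have h := Measure.addHaarMeasure_self (K₀ := (⊤ : TopologicalSpace.PositiveCompacts ℤ_[p]))
  rwa [TopologicalSpace.PositiveCompacts.coe_top] at h

lemma unif_toZModPow (N : ℕ) [Fintype (ZMod (p ^ N))] :
    @Unif _ _ (borel ℤ_[p]) _ (haarZp p) (PadicInt.toZModPow (p := p) N) := by
  let _ : MeasurableSpace ℤ_[p] := borel ℤ_[p]
  have : BorelSpace ℤ_[p] := ⟨rfl⟩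
  have : NeZero (p ^ N) := ⟨pow_ne_zero _ (Fact.out : p.Prime).ne_zero⟩
  have hprob := haarZp_prob p
  have hmeas : ∀ b, MeasurableSet ((PadicInt.toZModPow (p := p) N) ⁻¹' {b}) := by
    intro b
    obtain ⟨z0, rfl⟩ := toZModPow_surj p N b
    rw [toZModPow_fiber]
    exact Metric.isClosed_closedBall.measurableSet
  have heq : ∀ b, haarZp p ((PadicInt.toZModPow (p := p) N) ⁻¹' {b})
      = haarZp p ((PadicInt.toZModPow (p := p) N) ⁻¹' {0}) := by
    intro b
    obtain ⟨z0, rfl⟩ := toZModPow_surj p N b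
    have h1 : (PadicInt.toZModPow (p := p) N) ⁻¹' {0}
        = (fun z => z0 + z) ⁻¹' ((PadicInt.toZModPow (p := p) N) ⁻¹' {PadicInt.toZModPow N z0}) := by
      ext z
      simp
    have hinv : (Measure.addHaarMeasure
        (⊤ : TopologicalSpace.PositiveCompacts ℤ_[p])).IsAddLeftInvariant := inferInstance
    rw [h1]
    show Measure.addHaarMeasure ⊤ _ = Measure.addHaarMeasure ⊤ _
    rw [measure_preimage_add]
  have hsum : ∑ b : ZMod (p ^ N), haarZp p ((PadicInt.toZModPow (p := p) N) ⁻¹' {b}) = 1 := by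
    rw [← measure_biUnion_finset]
    · have h1 : (⋃ b ∈ (Finset.univ : Finset (ZMod (p ^ N))),
          (PadicInt.toZModPow (p := p) N) ⁻¹' {b}) = Set.univ := by
        ext z; simp
      rw [h1, measure_univ]
    · intro b _ b' _ hbb
      show Disjoint ((PadicInt.toZModPow (p := p) N) ⁻¹' {b}) ((PadicInt.toZModPow (p := p) N) ⁻¹' {b'})
      rw [Set.disjoint_left]
      intro a ha ha'
      apply hbb
      rw [Set.mem_preimage, Set.mem_singleton_iff] at ha ha'
      rw [← ha, ← ha']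
    · exact fun b _ => hmeas b
  rw [Finset.sum_congr rfl fun b _ => heq b, Finset.sum_const, Finset.card_univ,
    nsmul_eq_mul] at hsum
  intro b
  refine ⟨hmeas b, ?_⟩
  rw [heq b]
  exact ENNReal.eq_inv_of_mul_eq_one_left (by rw [mul_comm]; exact hsum)

/-- entrywise reduction of a tuple of columns -/
noncomputable def redC (N n : ℕ) (ω : Fin n → Fin n → ℤ_[p]) : Fin n → Fin n → ZMod (p ^ N) :=
  fun j i => PadicInt.toZModPow N (ω j i)

lemma haarCols_prob (N n : ℕ) [Fintype (ZMod (p ^ N))] (E : Set (Fin n → Fin n → ZMod (p ^ N))) :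
    @Measure.real _ (@MeasurableSpace.pi _ _ fun _ => @MeasurableSpace.pi _ _ fun _ => borel ℤ_[p])
      (haarCols p n) (redC p N n ⁻¹' E) = av (fun M => I (M ∈ E)) := by
  classical
  let _ : MeasurableSpace ℤ_[p] := borel ℤ_[p]
  have : BorelSpace ℤ_[p] := ⟨rfl⟩
  have hprob := haarZp_prob p
  exact ((unif_toZModPow p N).pi n).pi n |>.prob E

end

end Pool.Agent.V11329.Haar
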