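import Pool.Agent.V11329.Coker

/-! The rank-zero criterion. -/

set_option autoImplicit false

namespace Pool.Agent.V11329.Main

open Filter Topology MeasureTheory
open Pool.Agent.V11329.Avg Pool.Agent.V11329.Chain Pool.Agent.V11329.Quot Pool.Agent.V11329.Haar
  Pool.Agent.V11329.Coker Pool.Agent.V11329.FW Pool.Agent.V11329.CokDefs

open Classical in
/-- restriction of a vector to a set of coordinates -/
noncomputable def mask (q : ℕ) {n : ℕ} (s : Set (Fin n)) : (Fin n → ZMod q) →+ (Fin n → ZMod q) :=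
  AddMonoidHom.mk' (fun w i => if i ∈ s then w i else 0) (fun x y => by
    funext i
    by_cases h : i ∈ s
    · simp [h]
    · simp [h])

section
variable {p : ℕ} [Fact p.Prime] {n : ℕ}

lemma mask_redC (N : ℕ) (σ : Fin n → Set (Fin n)) (ω : Fin n → Fin n → ℤ_[p]) :
    (fun j => fun i => PadicInt.toZModPow N (mat σ ω i j))
      = fun j => mask (p ^ N) (σ j) (redC p N n ω j) := by
  funext j i
  by_cases h : i ∈ σ j
  · simp [mat, mask, redC, h]
  · simp [mat, mask, h]

lemma prob_cok {N : ℕ} (hN : 1 ≤ N) [Fintype (ZMod (p ^ N))] (σ : Fin n → Set (Fin n)) (G : Type)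
    [AddCommGroup G] (hG : ∀ x : G, p ^ (N - 1) • x = 0) :
    prob p n {ω | Nonempty (cok (mat σ ω) ≃+ G)}
      = av (fun ω : Fin n → (Fin n → ZMod (p ^ N)) =>
          I (CK G (AddSubgroup.closure (Set.range fun j => mask (p ^ N) (σ j) (ω j))))) := by
  have h1 : {ω : Fin n → Fin n → ℤ_[p] | Nonempty (cok (mat σ ω) ≃+ G)} = redC p N n ⁻¹'
      {M | CK G (AddSubgroup.closure (Set.range fun j => mask (p ^ N) (σ j) (M j)))} := by
    ext ω
    rw [Set.mem_ofPred_eq, Set.mem_preimage, Set.mem_ofPred_eq, cok_iff hN G hG, mask_redC]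
  unfold prob
  rw [h1, haarCols_prob]
  rfl

lemma prob_det {N : ℕ} (hN : 1 ≤ N) [Fintype (ZMod (p ^ N))] (σ : Fin n → Set (Fin n)) :
    prob p n {ω | ((mat σ ω).map (PadicInt.toZMod (p := p))).det ≠ 0}
      = av (fun ω : Fin n → (Fin n → ZMod (p ^ N)) =>
          I (J (pS p (Fin n → ZMod (p ^ N))) (fun j => mask (p ^ N) (σ j) (ω j)) = ⊤)) := by
  have h1 : {ω : Fin n → Fin n → ℤ_[p] | ((mat σ ω).map (PadicInt.toZMod (p := p))).det ≠ 0}
      = redC p N n ⁻¹'
      {M | J (pS p (Fin n → ZMod (p ^ N))) (fun j => mask (p ^ N) (σ j) (M j)) = ⊤} := by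
    ext ω
    rw [Set.mem_ofPred_eq, Set.mem_preimage, Set.mem_ofPred_eq, det_iff hN, mask_redC,
      J_eq_top_iff (pow_smul_V n)]
  unfold prob
  rw [h1, haarCols_prob]
  rfl

end

lemma av_append {W : Type*} [Fintype W] {m K : ℕ} (F : (Fin (m + K) → W) → ℝ) :
    av F = av (fun u : Fin m → W => av (fun v : Fin K → W => F (Fin.append u v))) := by
  rw [← av_prod (fun q : (Fin m → W) × (Fin K → W) => F (Fin.append q.1 q.2)),
    ← av_equiv (Fin.appendEquiv m K) F]
  rfl

lemma range_append {W : Type*} {m K : ℕ} (f : Fin (m + K) → W → W) (u : Fin m → W) (v : Fin K → W) :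
    Set.range (fun j => f j (Fin.append u v j)) =
      Set.range (fun a => f (Fin.castAdd K a) (u a)) ∪
        Set.range (fun b => f (Fin.natAdd m b) (v b)) := by
  ext x
  constructor
  · rintro ⟨j, rfl⟩
    refine Fin.addCases (fun a => ?_) (fun b => ?_) j
    · left; exact ⟨a, by simp⟩
    · right; exact ⟨b, by simp⟩
  · rintro (⟨a, rfl⟩ | ⟨b, rfl⟩)
    · exact ⟨Fin.castAdd K a, by simp⟩
    · exact ⟨Fin.natAdd m b, by simp⟩

/-- the quantitative comparison for a fixed matrix size -/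
lemma bound {p : ℕ} [Fact p.Prime] (k m : ℕ) (σ : Fin (m + (k + 1)) → Set (Fin (m + (k + 1))))
    {N : ℕ} (hN : 1 ≤ N) [Fintype (ZMod (p ^ N))] (G : Type) [AddCommGroup G]
    (hG : ∀ x : G, p ^ (N - 1) • x = 0) :
    |prob p (m + (k + 1)) {ω | Nonempty (cok (mat σ ω) ≃+ G)} - rho p N (k + 1) G|
      ≤ 1 - (prob p (m + (k + 1)) {ω | ((mat σ ω).map (PadicInt.toZMod (p := p))).det ≠ 0}
        - ee p (m + (k + 1)) / ee p (k + 1) * ((1 - 1 / (p : ℝ) ^ k) * ee p k))
        / (ee p (k + 1) - (1 - 1 / (p : ℝ) ^ k) * ee p k) := by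
  have hp : p.Prime := Fact.out
  have : NeZero (p ^ N) := ⟨pow_ne_zero _ hp.ne_zero⟩
  set W := Fin (m + (k + 1)) → ZMod (p ^ N) with hW
  have hWN : ∀ x : W, p ^ N • x = 0 := pow_smul_V _
  have hcard : Nat.card W = (p ^ N) ^ (m + (k + 1)) := card_V _
  have hidx : (pS p W).index = p ^ (m + (k + 1)) := pS_index hp hN _
  let f : Fin m → W →+ W := fun a => mask (p ^ N) (σ (Fin.castAdd (k + 1) a))
  let g : Fin (k + 1) → W →+ W := fun b => mask (p ^ N) (σ (Fin.natAdd m b))
  have e1 : prob p (m + (k + 1)) {ω | Nonempty (cok (mat σ ω) ≃+ G)}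
      = av (fun u : Fin m → W => av (fun v : Fin (k + 1) → W =>
        I (CK G (NN f u ⊔ AddSubgroup.closure (Set.range (fun b => g b (v b))))))) := by
    rw [prob_cok hN σ G hG, av_append]
    refine av_congr fun u => av_congr fun v => ?_
    rw [range_append (fun j => (mask (p ^ N) (σ j) : W → W)), AddSubgroup.closure_union]
    rfl
  have e2 : prob p (m + (k + 1)) {ω | ((mat σ ω).map (PadicInt.toZMod (p := p))).det ≠ 0}
      = av (fun u : Fin m → W => av (fun v : Fin (k + 1) → W =>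
        I (J (J (pS p W) (fun a => f a (u a))) (fun b => g b (v b)) = ⊤))) := by
    rw [prob_det hN σ, av_append]
    refine av_congr fun u => av_congr fun v => ?_
    have : J (pS p W) (fun j => mask (p ^ N) (σ j) (Fin.append u v j))
        = J (J (pS p W) (fun a => f a (u a))) (fun b => g b (v b)) := by
      unfold J
      rw [range_append (fun j => (mask (p ^ N) (σ j) : W → W)), AddSubgroup.closure_union, sup_assoc]
    rw [this]
  have h1 := compare hp hWN hcard hidx f g G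
  have h2 := inv_le hp hidx f g
  rw [← e1] at h1
  rw [← e2] at h2
  have h3 : (1 - 1 / (p : ℝ) ^ (k + 1)) * cc p k k = ee p (k + 1) := by
    rw [← cc_self, cc_succ, Nat.add_sub_cancel]
  have h4 : cc p m (m + (k + 1)) = ee p (m + (k + 1)) / ee p (k + 1) := by
    rw [eq_div_iff (ee_pos hp _).ne', cc_mul]
  rw [h3, h4, cc_self] at h2
  have h5 : 0 < ee p (k + 1) - (1 - 1 / (p : ℝ) ^ k) * ee p k := by
    rw [← h3, cc_self]
    have h6 : (1 : ℝ) / (p : ℝ) ^ (k + 1) < 1 / (p : ℝ) ^ k := by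
      apply one_div_lt_one_div_of_lt
      · exact pow_pos (by exact_mod_cast hp.pos) _
      · exact pow_lt_pow_right₀ (by exact_mod_cast hp.one_lt) (by omega)
    have := mul_pos (sub_pos.2 h6) (ee_pos hp k)
    nlinarith
  refine h1.trans ?_
  have h7 : (prob p (m + (k + 1)) {ω | ((mat σ ω).map (PadicInt.toZMod (p := p))).det ≠ 0}
        - ee p (m + (k + 1)) / ee p (k + 1) * ((1 - 1 / (p : ℝ) ^ k) * ee p k))
        / (ee p (k + 1) - (1 - 1 / (p : ℝ) ^ k) * ee p k)
        ≤ av (fun u : Fin m → W => I (good p f g u)) := by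
    rw [div_le_iff₀ h5]
    nlinarith
  linarith

lemma ee_lower {p : ℕ} (hp : p.Prime) (n : ℕ) : 1 / 4 + (1 / 2 : ℝ) ^ (n + 2) ≤ ee p (n + 1) := by
  have hp2 : (2 : ℝ) ≤ p := by exact_mod_cast hp.two_le
  induction n with
  | zero =>
    unfold ee
    rw [Finset.prod_range_one]
    have : 1 / (p : ℝ) ^ (0 + 1) ≤ 1 / 2 := by
      rw [zero_add, pow_one]
      exact one_div_le_one_div_of_le (by norm_num) hp2
    norm_num
    norm_num at this
    linarith
  | succ n ih =>
    have h1 : ee p (n + 1 + 1) = ee p (n + 1) * (1 - 1 / (p : ℝ) ^ (n + 2)) := by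
      unfold ee; rw [Finset.prod_range_succ]
    have h2 : 1 / (p : ℝ) ^ (n + 2) ≤ (1 / 2) ^ (n + 2) := by
      rw [one_div_pow]
      exact one_div_le_one_div_of_le (by positivity) (pow_le_pow_left₀ (by norm_num) hp2 _)
    have h3 : (1 / 2 : ℝ) ^ (n + 2) ≤ 1 / 4 := by
      rw [pow_add]
      have : (1 / 2 : ℝ) ^ n ≤ 1 := pow_le_one₀ (by norm_num) (by norm_num)
      norm_num
      norm_num at this
      linarith
    have h4 : (0 : ℝ) < (1 / 2 : ℝ) ^ (n + 2) := by positivity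
    have h5 : (1 / 2 : ℝ) ^ (n + 1 + 2) = (1 / 2) ^ (n + 2) / 2 := by
      rw [show n + 1 + 2 = (n + 2) + 1 by ring, pow_succ]; ring
    rw [h1, h5]
    set t := (1 / 2 : ℝ) ^ (n + 2) with ht
    have h6 : (1 / 4 + t) * (1 - t) ≤ ee p (n + 1) * (1 - 1 / (p : ℝ) ^ (n + 2)) := by
      apply mul_le_mul ih
      · linarith
      · linarith
      · exact (ee_pos hp _).le
    nlinarith

lemma cinf_pos {p : ℕ} (hp : p.Prime) : 0 < cinf p := by
  have h1 : (1 / 4 : ℝ) ≤ cinf p := by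
    refine ge_of_tendsto' ((ee_tendsto hp).comp (tendsto_add_atTop_nat 1)) fun n => ?_
    have := ee_lower hp n
    have h4 : (0 : ℝ) < (1 / 2 : ℝ) ^ (n + 2) := by positivity
    simp only [Function.comp_apply]
    linarith
  linarith

theorem forward {p : ℕ} [Fact p.Prime] (σ : ∀ n : ℕ, Fin n → Set (Fin n))
    (hdet : Tendsto (fun n => prob p n {ω | ((mat (σ n) ω).map (PadicInt.toZMod (p := p))).det ≠ 0})
      atTop (𝓝 (cinf p)))
    (G : Type) [AddCommGroup G] [Finite G] (hG : ∃ k, Nat.card G = p ^ k) :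
    Tendsto (fun n => prob p n {ω | Nonempty (cok (mat (σ n) ω) ≃+ G)}) atTop (𝓝 (CL p G)) := by
  classical
  have hp : p.Prime := Fact.out
  obtain ⟨e, he⟩ := hG
  set N := e + 1 with hN
  have hNeZ : NeZero (p ^ N) := ⟨pow_ne_zero _ hp.ne_zero⟩
  have hkill : ∀ x : G, p ^ (N - 1) • x = 0 := by
    intro x
    rw [hN, Nat.add_sub_cancel, ← he]
    exact card_nsmul_eq_zero'
  have hfin : Fintype G := Fintype.ofFinite G
  have hc := cinf_pos hp
  -- convergence of the comparison values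
  have hrho : Tendsto (fun k => rho p N (k + 1) G) atTop (𝓝 (CL p G)) := by
    have h1 : ∀ k, rho p N (k + 1) G
        = gam (k + 1) G * ee p (k + 1) / (Nat.card (G ≃+ G) : ℝ) := by
      intro k
      rw [rho_eq hp (by omega) (k + 1) G hkill, cc_self]
    simp_rw [h1]
    have h2 : CL p G = 1 * cinf p / (Nat.card (G ≃+ G) : ℝ) := by
      unfold CL cInf cinf; ring
    rw [h2]
    exact (((gam_tendsto G).comp (tendsto_add_atTop_nat 1)).mul
      ((ee_tendsto hp).comp (tendsto_add_atTop_nat 1))).div_const _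
  have hgap : Tendsto (fun k => 1 - cinf p / ee p (k + 1)) atTop (𝓝 0) := by
    have h1 : Tendsto (fun k => cinf p / ee p (k + 1)) atTop (𝓝 (cinf p / cinf p)) :=
      tendsto_const_nhds.div ((ee_tendsto hp).comp (tendsto_add_atTop_nat 1)) hc.ne'
    rw [div_self hc.ne'] at h1
    simpa using h1.const_sub 1
  rw [Metric.tendsto_atTop]
  intro ε hε
  obtain ⟨k, hk1, hk2⟩ : ∃ k, |rho p N (k + 1) G - CL p G| < ε / 3 ∧
      1 - cinf p / ee p (k + 1) < ε / 3 := by
    have h1 := (Metric.tendsto_atTop.1 hrho) (ε / 3) (by positivity)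
    have h2 := (hgap.eventually (gt_mem_nhds (show (0 : ℝ) < ε / 3 by positivity)))
    obtain ⟨k1, hk1⟩ := h1
    obtain ⟨k2, hk2⟩ := eventually_atTop.1 h2
    refine ⟨max k1 k2, ?_, hk2 _ (le_max_right _ _)⟩
    have := hk1 (max k1 k2) (le_max_left _ _)
    rwa [Real.dist_eq] at this
  set δ := ee p (k + 1) - (1 - 1 / (p : ℝ) ^ k) * ee p k with hδ
  have hδpos : 0 < δ := by
    have h3 : (1 - 1 / (p : ℝ) ^ (k + 1)) * ee p k = ee p (k + 1) := by
      unfold ee; rw [Finset.prod_range_succ, mul_comm]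
    rw [hδ, ← h3]
    have h6 : (1 : ℝ) / (p : ℝ) ^ (k + 1) < 1 / (p : ℝ) ^ k := by
      apply one_div_lt_one_div_of_lt
      · exact pow_pos (by exact_mod_cast hp.pos) _
      · exact pow_lt_pow_right₀ (by exact_mod_cast hp.one_lt) (by omega)
    have := mul_pos (sub_pos.2 h6) (ee_pos hp k)
    nlinarith
  have hB : Tendsto (fun n => 1 - (prob p n {ω | ((mat (σ n) ω).map
      (PadicInt.toZMod (p := p))).det ≠ 0} - ee p n / ee p (k + 1) *
        ((1 - 1 / (p : ℝ) ^ k) * ee p k)) / δ) atTop (𝓝 (1 - cinf p / ee p (k + 1))) := by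
    have h1 := ((hdet.sub (((ee_tendsto hp).div_const (ee p (k + 1))).mul_const
      ((1 - 1 / (p : ℝ) ^ k) * ee p k))).div_const δ).const_sub 1
    have h2 : (1 : ℝ) - (cinf p - cinf p / ee p (k + 1) * ((1 - 1 / (p : ℝ) ^ k) * ee p k)) / δ
        = 1 - cinf p / ee p (k + 1) := by
      have h3 : cinf p - cinf p / ee p (k + 1) * ((1 - 1 / (p : ℝ) ^ k) * ee p k)
          = cinf p / ee p (k + 1) * δ := by
        have := (ee_pos hp (k + 1)).ne'
        rw [hδ]
        field_simp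
      rw [h3, mul_div_assoc, div_self hδpos.ne', mul_one]
    rw [h2] at h1
    exact h1
  have h3 := hB.eventually (gt_mem_nhds (show 1 - cinf p / ee p (k + 1) < 2 * (ε / 3) by linarith))
  obtain ⟨n0, hn0⟩ := eventually_atTop.1 h3
  refine ⟨max n0 (k + 1), fun n hn => ?_⟩
  have hn1 : n0 ≤ n := (le_max_left _ _).trans hn
  have hn2 : k + 1 ≤ n := (le_max_right _ _).trans hn
  have h4 := hn0 n hn1
  obtain ⟨m, rfl⟩ : ∃ m, n = m + (k + 1) := ⟨n - (k + 1), by omega⟩
  have h5 := bound k m (σ (m + (k + 1))) (N := N) (by omega) G hkill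
  rw [Real.dist_eq]
  have h6 := abs_sub_le (prob p (m + (k + 1)) {ω | Nonempty (cok (mat (σ (m + (k + 1))) ω) ≃+ G)})
    (rho p N (k + 1) G) (CL p G)
  linarith

lemma CK_punit {V : Type} [AddCommGroup V] (M : AddSubgroup V) : CK PUnit.{1} M ↔ M = ⊤ := by
  constructor
  · rintro ⟨e⟩
    rw [eq_top_iff]
    intro x _
    rw [← QuotientAddGroup.eq_zero_iff]
    exact e.injective (Subsingleton.elim _ _)
  · rintro rfl
    have : Subsingleton (V ⧸ (⊤ : AddSubgroup V)) := QuotientAddGroup.subsingleton_quotient_top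
    exact ⟨⟨⟨fun _ => PUnit.unit, fun _ => 0, fun _ => Subsingleton.elim _ _,
      fun _ => Subsingleton.elim _ _⟩, fun _ _ => rfl⟩⟩

lemma prob_punit {p : ℕ} [Fact p.Prime] {n : ℕ} (σ : Fin n → Set (Fin n)) :
    prob p n {ω | Nonempty (cok (mat σ ω) ≃+ PUnit.{1})}
      = prob p n {ω | ((mat σ ω).map (PadicInt.toZMod (p := p))).det ≠ 0} := by
  have : NeZero (p ^ 1) := ⟨pow_ne_zero _ (Fact.out : p.Prime).ne_zero⟩
  rw [prob_cok (N := 1) le_rfl σ PUnit.{1} (fun x => Subsingleton.elim _ _),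
    prob_det (N := 1) le_rfl σ]
  refine av_congr fun ω => I_congr ?_
  rw [CK_punit, J_eq_top_iff (pow_smul_V n)]

lemma CL_punit (p : ℕ) : CL p PUnit.{1} = cinf p := by
  have h : Nat.card (PUnit.{1} ≃+ PUnit.{1}) = 1 := by
    rw [Nat.card_eq_one_iff_unique]
    exact ⟨⟨fun a b => AddEquiv.ext fun x => rfl⟩, ⟨AddEquiv.refl _⟩⟩
  unfold CL cInf cinf
  rw [h]
  simp

/-- the rank-zero criterion -/
theorem main (p : ℕ) [Fact p.Prime] (σ : ∀ n : ℕ, Fin n → Set (Fin n)) :
    (∀ (G : Type) [AddCommGroup G] [Finite G], (∃ k, Nat.card G = p ^ k) →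
      Tendsto (fun n => prob p n {ω | Nonempty (cok (mat (σ n) ω) ≃+ G)}) atTop (𝓝 (CL p G)))
    ↔ Tendsto (fun n => prob p n {ω | ((mat (σ n) ω).map (PadicInt.toZMod (p := p))).det ≠ 0})
        atTop (𝓝 (cInf p)) := by
  constructor
  · intro h
    have h1 := h PUnit.{1} ⟨0, by simp⟩
    rw [CL_punit] at h1
    exact h1.congr fun n => prob_punit (σ n)
  · intro h G _ _ hG
    exact forward σ h G hG

end Pool.Agent.V11329.Main
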