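import Pool.Agent.V11329.Chain

/-! Conditional law of a cokernel given all but `K` of the columns. -/

set_option autoImplicit false

namespace Pool.Agent.V11329.Quot

open AddSubgroup Pool.Agent.V11329.Avg Pool.Agent.V11329.Chain

/-- the subgroup of multiples of `p` -/
def pS (p : ℕ) (W : Type*) [AddCommGroup W] : AddSubgroup W := (nsmulAddMonoidHom p : W →+ W).range

section
variable {W : Type*} [AddCommGroup W] {p N : ℕ}

lemma mem_pS {x : W} : x ∈ pS p W ↔ ∃ y : W, p • y = x := by
  unfold pS; rw [AddMonoidHom.mem_range]; rfl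

lemma smul_mem_pS (x : W) : p • x ∈ pS p W := mem_pS.2 ⟨x, rfl⟩

lemma frattini (hN : ∀ x : W, p ^ N • x = 0) (S : AddSubgroup W) (h : S ⊔ pS p W = ⊤) : S = ⊤ := by
  have key : ∀ k : ℕ, ∀ x : W, ∃ s ∈ S, ∃ y : W, x = s + p ^ k • y := by
    intro k
    induction k with
    | zero => intro x; exact ⟨0, S.zero_mem, x, by simp⟩
    | succ k ih =>
      intro x
      obtain ⟨s, hs, y, rfl⟩ := ih x
      have hy : y ∈ S ⊔ pS p W := by rw [h]; trivial
      obtain ⟨s', hs', z, hz, rfl⟩ := mem_sup.1 hy
      obtain ⟨w, rfl⟩ := mem_pS.1 hz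
      refine ⟨s + p ^ k • s', S.add_mem hs (S.nsmul_mem hs' _), w, ?_⟩
      rw [pow_succ, smul_add, mul_smul, add_assoc]
  rw [eq_top_iff]
  intro x _
  obtain ⟨s, hs, y, rfl⟩ := key N x
  rw [hN y, add_zero]
  exact hs

/-- the homomorphism from `(ℤ/p^N)^K` determined by `K` elements -/
noncomputable def L {Q : Type*} [AddCommGroup Q] (hQ : ∀ x : Q, p ^ N • x = 0) {K : ℕ}
    (y : Fin K → Q) : (Fin K → ZMod (p ^ N)) →+ Q :=
  ∑ i, (ZMod.lift (p ^ N) ⟨zmultiplesHom Q (y i), by
    rw [zmultiplesHom_apply, natCast_zsmul]; exact hQ (y i)⟩).comp (Pi.evalAddMonoidHom _ i)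

lemma L_apply {Q : Type*} [AddCommGroup Q] (hp : p.Prime) (hQ : ∀ x : Q, p ^ N • x = 0) {K : ℕ}
    (y : Fin K → Q) (a : Fin K → ZMod (p ^ N)) : L hQ y a = ∑ i, (a i).val • y i := by
  have : NeZero (p ^ N) := ⟨(pow_pos hp.pos N).ne'⟩
  unfold L
  rw [AddMonoidHom.finsetSum_apply]
  refine Finset.sum_congr rfl fun i _ => ?_
  rw [AddMonoidHom.comp_apply, Pi.evalAddMonoidHom_apply]
  have h : a i = (((a i).val : ℤ) : ZMod (p ^ N)) := by
    rw [Int.cast_natCast, ZMod.natCast_zmod_val]
  generalize hv : (a i).val = t at h ⊢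
  rw [h, ZMod.lift_coe]
  simp

lemma L_single {Q : Type*} [AddCommGroup Q] (hp : p.Prime) (hQ : ∀ x : Q, p ^ N • x = 0) {K : ℕ}
    (y : Fin K → Q) (i : Fin K) : L hQ y (Pi.single i 1) = y i := by
  unfold L
  rw [AddMonoidHom.finsetSum_apply, Finset.sum_eq_single i]
  · rw [AddMonoidHom.comp_apply, Pi.evalAddMonoidHom_apply, Pi.single_eq_same,
      ← Int.cast_one (R := ZMod (p ^ N)), ZMod.lift_coe]
    simp
  · intro j _ hj
    rw [AddMonoidHom.comp_apply, Pi.evalAddMonoidHom_apply, Pi.single_eq_of_ne hj, map_zero]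
  · intro h; exact absurd (Finset.mem_univ _) h

lemma L_range {Q : Type*} [AddCommGroup Q] (hp : p.Prime) (hQ : ∀ x : Q, p ^ N • x = 0) {K : ℕ}
    (y : Fin K → Q) : (L hQ y).range = AddSubgroup.closure (Set.range y) := by
  apply le_antisymm
  · rintro _ ⟨a, rfl⟩
    rw [L_apply hp]
    exact sum_mem fun i _ => nsmul_mem (AddSubgroup.subset_closure (Set.mem_range_self i)) _
  · rw [closure_le]
    rintro _ ⟨i, rfl⟩
    exact ⟨Pi.single i 1, L_single hp hQ y i⟩

lemma card_V (K : ℕ) : Nat.card (Fin K → ZMod (p ^ N)) = (p ^ N) ^ K := by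
  rw [Nat.card_fun, Nat.card_zmod, Nat.card_fin]

lemma exists_gen (hp : p.Prime) [Finite W] : ∀ (d : ℕ) (S : AddSubgroup W) (_ : ∀ x, p • x ∈ S)
    (_ : S.index = p ^ d), ∃ y : Fin d → W, J S y = ⊤ := by
  intro d
  induction d with
  | zero =>
    intro S hS hd
    refine ⟨Fin.elim0, ?_⟩
    rw [J_zero]
    exact index_eq_one.1 (by simpa using hd)
  | succ d ih =>
    intro S hS hd
    have h1 : ∃ x, x ∉ S := by
      by_contra hcon
      push Not at hcon
      have : S = ⊤ := by rw [eq_top_iff]; exact fun x _ => hcon x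
      rw [← index_eq_one, hd] at this
      have h2 := Nat.one_lt_pow (n := d + 1) (by omega) hp.one_lt
      omega
    obtain ⟨x, hx⟩ := h1
    have h2 := index_step hp S hS hx
    rw [hd, pow_succ] at h2
    obtain ⟨y, hy⟩ := ih (S ⊔ zmultiples x) (fun y => le_sup_left (a := S) (hS y))
      (Nat.eq_of_mul_eq_mul_right hp.pos h2)
    exact ⟨Fin.cons x y, by rw [J_cons, hy]⟩

end

section main

variable {W : Type} [AddCommGroup W] [Fintype W] {p N : ℕ}

/-- the subgroup generated by the first columns -/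
def NN {m : ℕ} (f : Fin m → W →+ W) (u : Fin m → W) : AddSubgroup W :=
  closure (Set.range (fun a => f a (u a)))

/-- the good event -/
def good (p : ℕ) {m K : ℕ} (f : Fin m → W →+ W) (g : Fin K → W →+ W) (u : Fin m → W) : Prop :=
  Ind p (pS p W) (fun a => f a (u a)) ∧ ∀ b, J (pS p W) (fun a => f a (u a)) ⊔ (g b).range = ⊤

/-- the cokernel by the subgroup `M` is isomorphic to `G` -/
def CK (G : Type) [AddCommGroup G] {V : Type} [AddCommGroup V] (M : AddSubgroup V) : Prop :=
  Nonempty (V ⧸ M ≃+ G)

/-- the probability that the cokernel of a uniform `K × K` matrix over `ℤ/p^N` is `G` -/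
noncomputable def rho (p N : ℕ) [Fintype (ZMod (p ^ N))] (K : ℕ) (G : Type) [AddCommGroup G] : ℝ :=
  av (fun y : Fin K → (Fin K → ZMod (p ^ N)) => I (CK G (closure (Set.range y))))

lemma exists_iso (hp : p.Prime) (hN : ∀ x : W, p ^ N • x = 0) {m K : ℕ}
    (hcard : Nat.card W = (p ^ N) ^ (m + K)) (hidx : (pS p W).index = p ^ (m + K))
    (x : Fin m → W) (hx : Ind p (pS p W) x) :
    Nonempty ((Fin K → ZMod (p ^ N)) ≃+ W ⧸ closure (Set.range x)) := by
  have : NeZero (p ^ N) := ⟨(pow_pos hp.pos N).ne'⟩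
  have hQ : ∀ q : W ⧸ closure (Set.range x), p ^ N • q = 0 := by
    intro q
    obtain ⟨w, rfl⟩ := QuotientAddGroup.mk_surjective q
    rw [← QuotientAddGroup.mk_nsmul, hN w]; rfl
  obtain ⟨y, hy⟩ := exists_gen hp K (J (pS p W) x) (fun w => le_J _ _ (smul_mem_pS w))
    (index_of_Ind _ hp hidx x hx)
  have h1 : closure (Set.range x) ⊔ closure (Set.range y) = ⊤ := by
    apply frattini hN
    rw [← hy]
    unfold J
    rw [sup_comm, sup_assoc]
  set q : Fin K → W ⧸ closure (Set.range x) := fun i => (y i : W ⧸ closure (Set.range x)) with hq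
  have h2 : Function.Surjective (L hQ q) := by
    rw [← AddMonoidHom.range_eq_top, L_range hp]
    have h3 : closure (Set.range q) = (closure (Set.range y)).map (QuotientAddGroup.mk' _) := by
      rw [AddMonoidHom.map_closure, ← Set.range_comp]; rfl
    rw [h3]
    have h4 := congrArg (fun S : AddSubgroup W =>
      S.map (QuotientAddGroup.mk' (closure (Set.range x)))) h1
    simp only [AddSubgroup.map_sup, QuotientAddGroup.map_mk'_self, bot_sup_eq] at h4
    rw [h4, ← AddMonoidHom.range_eq_map, AddMonoidHom.range_eq_top]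
    exact QuotientAddGroup.mk'_surjective _
  have h5 : Nat.card (closure (Set.range x)) ≤ (p ^ N) ^ m := by
    have h6 : closure (Set.range x) = (L hN x).range := (L_range hp hN x).symm
    rw [h6, ← card_V (p := p) (N := N) m]
    exact Nat.card_le_card_of_surjective _ (AddMonoidHom.rangeRestrict_surjective _)
  have h7 : (p ^ N) ^ K ≤ Nat.card (W ⧸ closure (Set.range x)) := by
    have h8 := card_mul_index (closure (Set.range x))
    rw [index_eq_card, hcard, pow_add] at h8
    by_contra hcon
    push Not at hcon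
    have h9 : Nat.card (closure (Set.range x)) * Nat.card (W ⧸ closure (Set.range x))
        < (p ^ N) ^ m * (p ^ N) ^ K := by
      calc _ ≤ (p ^ N) ^ m * Nat.card (W ⧸ closure (Set.range x)) := Nat.mul_le_mul_right _ h5
        _ < _ := Nat.mul_lt_mul_of_pos_left hcon (pow_pos (pow_pos hp.pos N) m)
    omega
  have h10 : Function.Bijective (L hQ q) :=
    h2.bijective_of_nat_card_le (by rw [card_V]; exact h7)
  exact ⟨AddEquiv.ofBijective _ h10⟩

lemma CK_iff {V V' : Type} [AddCommGroup V] [AddCommGroup V'] (G : Type) [AddCommGroup G]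
    {M : AddSubgroup V} {M' : AddSubgroup V'} (e : V ⧸ M ≃+ V' ⧸ M') : CK G M ↔ CK G M' :=
  ⟨fun ⟨i⟩ => ⟨e.symm.trans i⟩, fun ⟨i⟩ => ⟨e.trans i⟩⟩

lemma cond_law (hp : p.Prime) (hN : ∀ x : W, p ^ N • x = 0) [Fintype (ZMod (p ^ N))] {m K : ℕ}
    (hcard : Nat.card W = (p ^ N) ^ (m + K)) (hidx : (pS p W).index = p ^ (m + K))
    (f : Fin m → W →+ W) (g : Fin K → W →+ W) (u : Fin m → W) (hu : good p f g u)
    (G : Type) [AddCommGroup G] :
    av (fun v : Fin K → W => I (CK G (NN f u ⊔ closure (Set.range (fun b => g b (v b))))))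
      = rho p N K G := by
  classical
  obtain ⟨e⟩ := exists_iso hp hN hcard hidx _ hu.1
  set Nu := closure (Set.range (fun a => f a (u a))) with hNu
  -- the induced maps
  let φ : Fin K → W →+ (Fin K → ZMod (p ^ N)) := fun b =>
    (e.symm.toAddMonoidHom.comp (QuotientAddGroup.mk' Nu)).comp (g b)
  have hφ : ∀ b, Function.Surjective (φ b) := by
    intro b
    have h1 : Nu ⊔ (g b).range = ⊤ := by
      apply frattini hN
      rw [← hu.2 b]
      unfold J
      rw [sup_comm, ← sup_assoc]
    have h2 : Function.Surjective ((QuotientAddGroup.mk' Nu).comp (g b)) := by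
      rw [← AddMonoidHom.range_eq_top, AddMonoidHom.range_comp]
      have h4 := congrArg (fun S : AddSubgroup W => S.map (QuotientAddGroup.mk' Nu)) h1
      simp only [AddSubgroup.map_sup, QuotientAddGroup.map_mk'_self, bot_sup_eq] at h4
      rw [h4, ← AddMonoidHom.range_eq_map, AddMonoidHom.range_eq_top]
      exact QuotientAddGroup.mk'_surjective _
    intro y
    obtain ⟨w, hw⟩ := h2 (e y)
    refine ⟨w, ?_⟩
    show e.symm ((QuotientAddGroup.mk' Nu).comp (g b) w) = y
    rw [hw]; simp
  let Φ : (Fin K → W) →+ (Fin K → (Fin K → ZMod (p ^ N))) :=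
    { toFun := fun v b => φ b (v b)
      map_zero' := by funext b; simp
      map_add' := fun v w => by funext b; simp }
  have hΦ : Function.Surjective Φ := by
    intro y
    choose w hw using fun b => hφ b (y b)
    exact ⟨w, funext hw⟩
  unfold rho
  rw [← av_surj Φ hΦ]
  refine av_congr fun v => I_congr ?_
  -- the quotient isomorphism
  have hM : Nu ≤ Nu ⊔ closure (Set.range (fun b => g b (v b))) := le_sup_left
  have e1 := QuotientAddGroup.quotientQuotientEquivQuotient Nu
    (Nu ⊔ closure (Set.range (fun b => g b (v b)))) hM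
  have h3 : (AddSubgroup.closure (Set.range (Φ v))).map (e : (Fin K → ZMod (p ^ N)) →+ W ⧸ Nu)
      = (Nu ⊔ closure (Set.range (fun b => g b (v b)))).map (QuotientAddGroup.mk' Nu) := by
    rw [AddSubgroup.map_sup, QuotientAddGroup.map_mk'_self, bot_sup_eq, AddMonoidHom.map_closure,
      AddMonoidHom.map_closure, ← Set.range_comp, ← Set.range_comp]
    congr 2
    funext b
    show e (e.symm ((QuotientAddGroup.mk' Nu) (g b (v b)))) = _
    simp
  have e2 := QuotientAddGroup.congr (closure (Set.range (Φ v)))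
    ((Nu ⊔ closure (Set.range (fun b => g b (v b)))).map (QuotientAddGroup.mk' Nu)) e h3
  exact (CK_iff G (e2.trans e1)).symm

/-- the total-variation comparison -/
lemma compare (hp : p.Prime) (hN : ∀ x : W, p ^ N • x = 0) [Fintype (ZMod (p ^ N))] {m K : ℕ}
    (hcard : Nat.card W = (p ^ N) ^ (m + K)) (hidx : (pS p W).index = p ^ (m + K))
    (f : Fin m → W →+ W) (g : Fin K → W →+ W) (G : Type) [AddCommGroup G] :
    |av (fun u : Fin m → W => av (fun v : Fin K → W =>
        I (CK G (NN f u ⊔ closure (Set.range (fun b => g b (v b))))))) - rho p N K G|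
      ≤ 1 - av (fun u : Fin m → W => I (good p f g u)) := by
  have hρ0 : 0 ≤ rho p N K G := av_nonneg fun _ => I_nonneg _
  have hρ1 : rho p N K G ≤ 1 := by
    unfold rho
    refine (av_mono fun _ => I_le_one _).trans ?_
    rw [av_const]
  set F : (Fin m → W) → ℝ := fun u => av (fun v : Fin K → W =>
        I (CK G (NN f u ⊔ closure (Set.range (fun b => g b (v b)))))) with hF
  have hF0 : ∀ u, 0 ≤ F u := fun u => av_nonneg fun _ => I_nonneg _
  have hF1 : ∀ u, F u ≤ 1 := fun u => by
    refine (av_mono fun _ => I_le_one _).trans ?_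
    rw [av_const]
  have h1 : ∀ u, F u - rho p N K G ≤ 1 - I (good p f g u) := by
    intro u
    by_cases hu : good p f g u
    · rw [I_true hu, hF]
      simp only
      rw [cond_law hp hN hcard hidx f g u hu G]; simp
    · rw [I_false hu]; linarith [hF1 u]
  have h2 : ∀ u, rho p N K G - F u ≤ 1 - I (good p f g u) := by
    intro u
    by_cases hu : good p f g u
    · rw [I_true hu, hF]
      simp only
      rw [cond_law hp hN hcard hidx f g u hu G]; simp
    · rw [I_false hu]; linarith [hF0 u]
  have h3 := av_mono h1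
  have h4 := av_mono h2
  rw [av_sub, av_sub, av_const, av_const] at h3 h4
  rw [abs_le]
  constructor <;> linarith

/-- the key inequality between the probability of invertibility and that of the good event -/
lemma inv_le (hp : p.Prime) {m k : ℕ}
    (hidx : (pS p W).index = p ^ (m + (k + 1))) (f : Fin m → W →+ W) (g : Fin (k + 1) → W →+ W) :
    av (fun u : Fin m → W => av (fun v : Fin (k + 1) → W =>
        I (J (J (pS p W) (fun a => f a (u a))) (fun b => g b (v b)) = ⊤)))
      ≤ av (fun u : Fin m → W => I (good p f g u)) * ((1 - 1 / (p : ℝ) ^ (k + 1)) * cc p k k)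
        + (cc p m (m + (k + 1)) - av (fun u : Fin m → W => I (good p f g u)))
          * ((1 - 1 / (p : ℝ) ^ k) * cc p k k) := by
  have hbound : ∀ u : Fin m → W, av (fun v : Fin (k + 1) → W =>
        I (J (J (pS p W) (fun a => f a (u a))) (fun b => g b (v b)) = ⊤))
      ≤ I (good p f g u) * ((1 - 1 / (p : ℝ) ^ (k + 1)) * cc p k k)
        + (I (Ind p (pS p W) (fun a => f a (u a))) - I (good p f g u))
          * ((1 - 1 / (p : ℝ) ^ k) * cc p k k) := by
    intro u
    set S := J (pS p W) (fun a => f a (u a)) with hS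
    have hSp : ∀ x, p • x ∈ S := fun x => le_J _ _ (smul_mem_pS x)
    by_cases hI : Ind p (pS p W) (fun a => f a (u a))
    · have hidxS : S.index = p ^ (k + 1) := index_of_Ind _ hp hidx _ hI
      have h1 : av (fun v : Fin (k + 1) → W => I (J S (fun b => g b (v b)) = ⊤)) = pI p S g := by
        unfold pI
        refine av_congr fun v => I_congr ?_
        unfold Ind
        rw [hidxS, ← index_eq_one]
        constructor
        · intro h; rw [h, one_mul]
        · intro h
          exact Nat.eq_of_mul_eq_mul_right (pow_pos hp.pos (k + 1)) (by rw [h, one_mul])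
      rw [h1, I_true hI]
      by_cases hg : good p f g u
      · rw [I_true hg, one_mul, sub_self, zero_mul, add_zero]
        have := pI_le hp S hSp (k + 1) hidxS g
        rwa [cc_succ, Nat.add_sub_cancel] at this
      · rw [I_false hg, zero_mul, zero_add, sub_zero, one_mul]
        have h2 : ∃ b, S ⊔ (g b).range ≠ ⊤ := by
          by_contra hcon
          push Not at hcon
          exact hg ⟨hI, hcon⟩
        obtain ⟨b, hb⟩ := h2
        exact pI_le_bad' hp S hSp k hidxS g b hb
    · have hg : ¬ good p f g u := fun h => hI h.1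
      rw [I_false hI, I_false hg]
      simp only [zero_mul, sub_self, add_zero]
      refine (av_mono (h := fun _ => (0 : ℝ)) fun v => ?_).trans (by rw [av_const])
      rw [I_false]
      intro htop
      apply hI
      have h1 := index_le_J hp S hSp (fun b => g b (v b))
      rw [htop, index_top, one_mul] at h1
      have h2 := index_le_J hp (pS p W) smul_mem_pS (fun a => f a (u a))
      unfold Ind
      apply le_antisymm
      · rw [hidx, pow_add, mul_comm]
        exact Nat.mul_le_mul_left _ h1
      · exact h2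
  refine (av_mono hbound).trans ?_
  rw [av_add, av_mul_right, av_mul_right, av_sub]
  have h3 : av (fun u : Fin m → W => I (Ind p (pS p W) (fun a => f a (u a))))
      ≤ cc p m (m + (k + 1)) := pI_le hp (pS p W) smul_mem_pS _ hidx f
  have h4 : 0 ≤ (1 - 1 / (p : ℝ) ^ k) * cc p k k := by
    refine mul_nonneg ?_ (cc_nonneg hp _ _)
    have h1 : (1 : ℝ) ≤ (p : ℝ) ^ k := one_le_pow₀ (by exact_mod_cast hp.one_lt.le)
    have := div_le_one_of_le₀ h1 (by positivity)
    linarith
  have h5 := mul_le_mul_of_nonneg_right (sub_le_sub_right h3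
    (av (fun u : Fin m → W => I (good p f g u)))) h4
  linarith

end main

end Pool.Agent.V11329.Quot
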